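import Pool.Agent.H522R3.ND.Lower

set_option autoImplicit false
set_option linter.unusedSectionVars false

/-!
The lower bounds in numbers.
-/

namespace H522R3.ND

open Finset Pool.Agent.H30R2 Pool.Agent.H30R2.PS Pool.Agent.H30R2.NS

/-- `N` cannot tell some formula `Φ0` which has an assignment making an odd number of literals in every clause
true from some unsatisfiable formula `Φ1`, whatever the guesses; both formulas have at most `M` clauses, all of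
whose variables are in the image of `ι`. -/
def Fooled {k : ℕ} {V X Y K Gt : Type} [Fintype Gt] (ι : V → X) (M : ℕ) (one zero : K)
    (N : PS.Net (Clause k X ⊕ Y) K Gt) : Prop :=
  ∃ Φ0 Φ1 : Set (Clause k X), (Φ0.Finite ∧ Φ0.ncard ≤ M) ∧ (Φ1.Finite ∧ Φ1.ncard ≤ M) ∧
    (∀ c ∈ Φ0 ∪ Φ1, ∀ l, (c l).1 ∈ Set.range ι) ∧ OddSat Φ0 ∧ ¬ Sat Φ1 ∧
    ∀ y : Y → K, N.eval (data one zero Φ0 y) = N.eval (data one zero Φ1 y)

/-- `3`-SAT -/
theorem three_bound {r g : ℕ} {X V Y K Gt : Type} [Fintype Gt] (ι : V ↪ X)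
    (D : AddSubgroup (V → ZMod 2)) (hD : Nat.card D = 2 ^ r) (σ : D → Equiv.Perm Y)
    (hσ : ∀ a b, σ (a + b) = σ a * σ b) (hg : {y | ∃ a, σ a y ≠ y}.encard ≤ g) (one zero : K)
    (N : PS.Net (Clause 3 X ⊕ Y) K Gt)
    (hN : ∀ a : D, SymAt N (ext0 ι a.1) (σ a)) (hs : Fintype.card Gt < 2 ^ ((r - g / 2) / 2000)) :
    Fooled ι (4 * (r + 1)) one zero N := by
  classical
  obtain ⟨hfin, hcard⟩ := Set.encard_le_coe_iff_finite_ncard_le.mp hg
  obtain ⟨D0, r0, hD0, hr0, hle, hle'⟩ := kernel_card D r hD σ hσ g hfin hcard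
  set τ : ℕ := r0 / 2000 with hτ
  have hG : 0 < Fintype.card Gt := by
    have : Nonempty Gt := ⟨N.out⟩
    exact Fintype.card_pos
  have hs' : Fintype.card Gt < 2 ^ τ :=
    lt_of_lt_of_le hs (Nat.pow_le_pow_right (by norm_num) (Nat.div_le_div_right (by omega)))
  have hτ1 : 1 ≤ τ := by
    by_contra h0
    have : τ = 0 := by omega
    rw [this, pow_zero] at hs'
    omega
  have hge : 2000 ≤ r0 := by
    rw [hτ, Nat.le_div_iff_mul_le (by norm_num)] at hτ1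
    omega
  have hrR : (2000 : ℝ) ≤ r0 := by exact_mod_cast hge
  have hτr : (2000 : ℝ) * τ ≤ r0 := by
    have : 2000 * τ ≤ r0 := Nat.mul_div_le r0 2000
    exact_mod_cast this
  obtain ⟨hq1, hq2⟩ := three_q (V := Fin r0) (by rw [Fintype.card_fin]; omega) (r0 + 1) τ (by
    rw [Fintype.card_fin]
    have h1 : ((r0 + 1 : ℕ) : ℝ) / r0 ≤ 10005 / 10000 := by
      rw [div_le_div_iff₀ (by linarith) (by norm_num)]
      push_cast
      linarith
    have h2 : ((2 * τ : ℕ) : ℝ) / r0 ≤ 1 / 1000 := by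
      rw [div_le_div_iff₀ (by linarith) (by norm_num)]
      push_cast
      linarith
    have h3 : (((r0 + 1 : ℕ) : ℝ) / r0) ^ 2 ≤ (10005 / 10000) ^ 2 :=
      pow_le_pow_left₀ (by positivity) h1 2
    calc 9933 / 1000 * (((r0 + 1 : ℕ) : ℝ) / r0) ^ 2 * ((2 * τ : ℕ) / r0)
        ≤ 9933 / 1000 * (10005 / 10000) ^ 2 * (1 / 1000) :=
          mul_le_mul (mul_le_mul_of_nonneg_left h3 (by norm_num)) h2 (by positivity)
            (by norm_num)
      _ ≤ 1 / 100 := by norm_num)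
  have hlt : (Fintype.card Gt : ℝ) * (2 * ((1 / 10) ^ (τ + 1) / (1 - 1 / 10))) +
      2 * ((1 / 10) ^ (0 + 1) / (1 - 1 / 10)) < 1 := by
    have h2 : (Fintype.card Gt : ℝ) ≤ 2 ^ τ := by exact_mod_cast hs'.le
    have h3 : (2 : ℝ) ^ τ * (1 / 10) ^ (τ + 1) ≤ 1 / 50 := by
      have h4 : (2 : ℝ) ^ τ * (1 / 10) ^ (τ + 1) = (1 / 5) ^ τ * (1 / 10) := by
        rw [pow_succ, ← mul_assoc, ← mul_pow]
        norm_num
      have h5 : (1 / 5 : ℝ) ^ τ ≤ (1 / 5) ^ 1 :=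
        pow_le_pow_of_le_one (by norm_num) (by norm_num) hτ1
      rw [h4]
      linarith
    have h6 : (Fintype.card Gt : ℝ) * (1 / 10) ^ (τ + 1) ≤ 1 / 50 :=
      le_trans (mul_le_mul_of_nonneg_right h2 (by positivity)) h3
    have h7 : (Fintype.card Gt : ℝ) * (2 * ((1 / 10) ^ (τ + 1) / (1 - 1 / 10))) =
        (20 / 9) * (Fintype.card Gt * (1 / 10) ^ (τ + 1)) := by ring
    rw [h7]
    norm_num
    nlinarith
  have hsum1 : ∑ J ∈ (univ : Finset (Finset (Fin (r0 + 1)))).filter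
      (fun J => τ < J.card ∧ J.card ≤ 2 * τ), NS.pp (Fin r0) (3 * J.card) ≤
      2 * ((1 / 10) ^ (τ + 1) / (1 - 1 / 10)) := by
    refine le_trans (le_of_eq ?_) hq1
    exact Finset.sum_congr (Finset.filter_congr_decidable _ _ _) fun _ _ => rfl
  have hsum2 : ∑ J ∈ (univ : Finset (Finset (Fin (r0 + 1)))).filter
      (fun J => 1 ≤ J.card ∧ J.card ≤ τ), NS.pp (Fin r0) (3 * J.card) ≤
      2 * ((1 / 10) ^ (0 + 1) / (1 - 1 / 10)) := by
    refine le_trans (le_of_eq ?_) hq2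
    exact Finset.sum_congr (Finset.filter_congr_decidable _ _ _) fun _ _ => rfl
  obtain ⟨Φ0, Φ1, h0, h1, hr, ho, hu, hy⟩ := core (k := 3) (by norm_num) (by omega) ι D0 hr0 one zero N
    (fun a ha => by
      obtain ⟨h, h'⟩ := hD0 a ha
      have := hN ⟨a, h⟩
      rw [h'] at this
      exact this) τ hτ1 _ _ hsum1 hsum2 hlt
  have hM : 2 ^ (3 - 1) * (r0 + 1) ≤ 4 * (r + 1) := by norm_num; omega
  exact ⟨Φ0, Φ1, ⟨h0.1, h0.2.trans hM⟩, ⟨h1.1, h1.2.trans hM⟩, hr, ho, hu, hy⟩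

/-- `k`-SAT -/
theorem seth_bound : ∃ C : ℝ, 0 < C ∧ ∀ (k r g : ℕ), 3 ≤ k → k ≤ r - g / 2 →
    ∀ (X V Y K Gt : Type) [Fintype Gt] (ι : V ↪ X)
    (D : AddSubgroup (V → ZMod 2)), Nat.card D = 2 ^ r → ∀ σ : D → Equiv.Perm Y,
    (∀ a b, σ (a + b) = σ a * σ b) → {y | ∃ a, σ a y ≠ y}.encard ≤ g → ∀ (one zero : K)
    (N : PS.Net (Clause k X ⊕ Y) K Gt), (∀ a : D, SymAt N (ext0 ι a.1) (σ a)) →
    (Fintype.card Gt : ℝ) < 2 ^ ((1 - C * (Real.log k ^ 2 / k)) * ((r - g / 2 : ℕ) : ℝ)) →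
    Fooled ι (2 ^ (k - 1) * (r + 1)) one zero N := by
  classical
  refine ⟨10 ^ 6, by norm_num, ?_⟩
  intro k r g hk hkr X V Y K Gt _ ι D hD σ hσ hg one zero N hN hs
  obtain ⟨hfin, hcard⟩ := Set.encard_le_coe_iff_finite_ncard_le.mp hg
  obtain ⟨D0, r0, hD0, hr0, hle, hle'⟩ := kernel_card D r hD σ hσ g hfin hcard
  have hk3 : (3 : ℝ) ≤ k := by exact_mod_cast hk
  have hkpos : (0 : ℝ) < k := by linarith
  have hL1 : 1 ≤ Real.log k := by
    rw [Real.le_log_iff_exp_le hkpos]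
    have := Real.exp_one_lt_d9
    linarith
  have hG : 0 < Fintype.card Gt := by
    have : Nonempty Gt := ⟨N.out⟩
    exact Fintype.card_pos
  have hG1 : (1 : ℝ) ≤ Fintype.card Gt := by exact_mod_cast hG
  set ρ : ℝ := ((r - g / 2 : ℕ) : ℝ) with hρ
  have hρ0 : 0 ≤ ρ := Nat.cast_nonneg _
  set y : ℝ := Real.log k ^ 2 / k with hy
  have hy0 : 0 ≤ y := by positivity
  -- the exponent is positive
  have hpos : 0 < (1 - 10 ^ 6 * y) * ρ := by
    by_contra hneg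
    push Not at hneg
    have : (2 : ℝ) ^ ((1 - 10 ^ 6 * y) * ρ) ≤ 1 := by
      calc (2 : ℝ) ^ ((1 - 10 ^ 6 * y) * ρ) ≤ 2 ^ (0 : ℝ) :=
            Real.rpow_le_rpow_of_exponent_le (by norm_num) hneg
        _ = 1 := Real.rpow_zero 2
    linarith
  have hfac : 0 < 1 - 10 ^ 6 * y := by
    by_contra hneg
    push Not at hneg
    have := mul_nonpos_of_nonpos_of_nonneg hneg hρ0
    linarith
  have hge : 10 ^ 6 ≤ k := by
    by_contra hlt
    push Not at hlt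
    have h1 : (k : ℝ) ≤ 10 ^ 6 := by exact_mod_cast hlt.le
    have h2 : 1 ≤ 10 ^ 6 * y := by
      have h3 : 1 ≤ Real.log k ^ 2 := by nlinarith
      rw [hy, ← mul_div_assoc, le_div_iff₀ hkpos]
      nlinarith
    linarith
  have hkr0 : k ≤ r0 := by omega
  have hρr0 : ρ ≤ r0 := by
    rw [hρ]
    exact_mod_cast (by omega : r - g / 2 ≤ r0)
  have hrk : (k : ℝ) ≤ r0 := by exact_mod_cast hkr0
  obtain ⟨τ, q1, q2, hτ, hq1, hq2, hq2', hq1pos, hq1'⟩ := large_k hge hkr0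
  have hk6 : (10 ^ 6 : ℝ) ≤ k := by exact_mod_cast hge
  have hyr : 1 ≤ y * r0 := by
    rw [hy, div_mul_eq_mul_div, le_div_iff₀ hkpos, one_mul]
    have hL2 : 1 ≤ Real.log k ^ 2 := by nlinarith
    calc (k : ℝ) ≤ 1 * r0 := by linarith
      _ ≤ Real.log k ^ 2 * r0 := mul_le_mul_of_nonneg_right hL2 (by linarith)
  have hs2 : (Fintype.card Gt : ℝ) < 2 ^ ((1 - 10 ^ 6 * y) * (r0 : ℝ)) := by
    refine lt_of_lt_of_le hs (Real.rpow_le_rpow_of_exponent_le (by norm_num) ?_)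
    exact mul_le_mul_of_nonneg_left hρr0 hfac.le
  have h15 : (2 : ℝ) ^ ((1 - 10 ^ 6 * y) * (r0 : ℝ)) ≤
      Real.exp (r0 * Real.log 2) * Real.exp (-(8 * y * r0)) := by
    rw [Real.rpow_def_of_pos (by norm_num), ← Real.exp_add, Real.exp_le_exp]
    have hlog : (1 : ℝ) / 2 ≤ Real.log 2 := by
      have := Real.log_two_gt_d9
      linarith
    have h16 : 0 ≤ y * r0 := by linarith
    have h17 : 8 * (y * r0) ≤ Real.log 2 * (10 ^ 6 * (y * r0)) := by nlinarith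
    have h18 : Real.log 2 * ((1 - 10 ^ 6 * y) * (r0 : ℝ))
        = r0 * Real.log 2 - Real.log 2 * (10 ^ 6 * (y * r0)) := by ring
    rw [h18]
    linarith
  have h8 : (8 : ℝ) ≤ Real.exp (3 * y * r0) := by
    have h5 : Real.exp 3 ≤ Real.exp (3 * y * r0) := by
      rw [Real.exp_le_exp]
      nlinarith
    have h6 : Real.exp 3 = Real.exp 1 ^ 3 := by
      rw [← Real.exp_nat_mul]
      norm_num
    have h7 := Real.exp_one_gt_d9
    have h8 : (27 / 10 : ℝ) ^ 3 ≤ Real.exp 1 ^ 3 :=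
      pow_le_pow_left₀ (by norm_num) (by linarith) 3
    rw [← h6] at h8
    refine le_trans ?_ h5
    refine le_trans ?_ h8
    norm_num
  have hlt : (Fintype.card Gt : ℝ) * q1 + q2 < 1 := by
    have h1 : (Fintype.card Gt : ℝ) * q1 ≤
        (Real.exp (r0 * Real.log 2) * Real.exp (-(8 * y * r0))) *
          (2 * Real.exp (-(r0 * Real.log 2)) * Real.exp (5 * y * r0)) :=
      mul_le_mul (hs2.le.trans h15) hq1' hq1pos.le (by positivity)
    have h2 : (Real.exp (r0 * Real.log 2) * Real.exp (-(8 * y * r0))) *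
          (2 * Real.exp (-(r0 * Real.log 2)) * Real.exp (5 * y * r0)) =
        2 * Real.exp (-(3 * y * r0)) := by
      have e1 : Real.exp (r0 * Real.log 2) * Real.exp (-(r0 * Real.log 2)) = 1 := by
        rw [← Real.exp_add, add_neg_cancel, Real.exp_zero]
      have e2 : Real.exp (-(8 * y * r0)) * Real.exp (5 * y * r0) = Real.exp (-(3 * y * r0)) := by
        rw [← Real.exp_add]
        congr 1
        ring
      calc _ = 2 * (Real.exp (r0 * Real.log 2) * Real.exp (-(r0 * Real.log 2))) *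
            (Real.exp (-(8 * y * r0)) * Real.exp (5 * y * r0)) := by ring
        _ = _ := by rw [e1, e2]; ring
    have h3 : Real.exp (-(3 * y * r0)) ≤ 1 / 8 := by
      rw [Real.exp_neg, inv_eq_one_div]
      exact one_div_le_one_div_of_le (by norm_num) h8
    rw [h2] at h1
    linarith
  obtain ⟨Φ0, Φ1, h0, h1, hr, ho, hu, hy⟩ := core (by omega) (by omega) ι D0 hr0 one zero N
    (fun a ha => by
      obtain ⟨h, h'⟩ := hD0 a ha
      have := hN ⟨a, h⟩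
      rw [h'] at this
      exact this) τ hτ _ _ hq1 hq2 hlt
  have hM : 2 ^ (k - 1) * (r0 + 1) ≤ 2 ^ (k - 1) * (r + 1) := Nat.mul_le_mul_left _ (by omega)
  exact ⟨Φ0, Φ1, ⟨h0.1, h0.2.trans hM⟩, ⟨h1.1, h1.2.trans hM⟩, hr, ho, hu, hy⟩

end H522R3.ND
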