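import Pool.Agent.H30R2.PS.Net
import Pool.Agent.H30R2.NS.Net

set_option autoImplicit false
set_option linter.unusedSectionVars false

/-!
Nondeterministic networks which read formulas, with symmetries.
-/

namespace H522R3.ND

open Finset Pool.Agent.H30R2 Pool.Agent.H30R2.PS Pool.Agent.H30R2.NS

/-- the clause over `X` obtained by renaming the variables of a clause over `V` by `ι` -/
def mapc {k : ℕ} {V X : Type} (ι : V → X) (c : Clause k V) : Clause k X := fun l => (ι (c l).1, (c l).2)

/-- Some assignment satisfies all clauses of `Φ` whose variables are in the image of `ι`. -/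
def SatOn {k : ℕ} {V X : Type} (ι : V → X) (Φ : Set (Clause k X)) : Prop :=
  ∃ x : V → ZMod 2, ∀ c : Clause k V, mapc ι c ∈ Φ → Satisfies x c

/-- The number of true literals of the clause `c` under the assignment `x` is odd. -/
def OddTrue {k : ℕ} {X : Type} (x : X → ZMod 2) (c : Clause k X) : Prop :=
  Odd ((univ : Finset (Fin k)).filter fun l => x (c l).1 = (c l).2).card

/-- Some assignment makes an odd number of literals in every clause of `Φ` true (solvability of a system of
linear equations modulo 2). -/
def OddSat {k : ℕ} {X : Type} (Φ : Set (Clause k X)) : Prop :=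
  ∃ x : X → ZMod 2, ∀ c ∈ Φ, OddTrue x c

open Classical in
/-- The input values of a network with clause inputs and guess inputs: the input for the clause `c` is `one` if
`c` is in the formula `Φ` and `zero` otherwise; the guess input `y` has the guessed value. -/
noncomputable def data {k : ℕ} {X Y K : Type} (one zero : K) (Φ : Set (Clause k X)) (y : Y → K) :
    Clause k X ⊕ Y → K :=
  Sum.elim (fun c => if c ∈ Φ then one else zero) y

/-- `N` is symmetric under the negation pattern `a : X → ZMod 2` (which negates the variables `x` with
`a x = 1`), acting on the guess inputs by the permutation `s`: the permutation extends to an automorphism of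
the network. -/
def SymAt {k : ℕ} {X Y K Gt : Type} (N : PS.Net (Clause k X ⊕ Y) K Gt) (a : X → ZMod 2)
    (s : Equiv.Perm Y) : Prop :=
  ∃ φ, N.IsAut (Equiv.sumCongr (neg a) s) φ

/-- extension of a pattern on `V` to `X` by `0` -/
noncomputable def ext0 {V X : Type} (ι : V → X) (a : V → ZMod 2) : X → ZMod 2 := Function.extend ι a 0

lemma ext0_apply {V X : Type} (ι : V ↪ X) (a : V → ZMod 2) (v : V) : ext0 ι a (ι v) = a v :=
  ι.injective.extend_apply _ _ _

lemma ext0_add {V X : Type} (ι : V ↪ X) (a b : V → ZMod 2) : ext0 ι (a + b) = ext0 ι a + ext0 ι b := by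
  funext x
  by_cases hx : ∃ v, ι v = x
  · obtain ⟨v, rfl⟩ := hx
    rw [Pi.add_apply, ext0_apply, ext0_apply, ext0_apply, Pi.add_apply]
  · unfold ext0
    rw [Pi.add_apply, Function.extend_apply' _ _ _ hx, Function.extend_apply' _ _ _ hx,
      Function.extend_apply' _ _ _ hx]
    exact (add_zero (0 : ZMod 2)).symm

end H522R3.ND
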