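import Pool.Agent.H522R3.ND.Elim

set_option autoImplicit false
set_option linter.unusedSectionVars false

/-!
Elimination of guess inputs of Boolean networks by exhaustive search over a set of values, with AND, OR and
NAND as the only new gates.
-/

namespace H522R3.ND

open Finset Pool.Agent.H30R2 Pool.Agent.H30R2.PS

variable {I Y Y' Z Gt P : Type} [Fintype Gt]

/-- the AND gate: all incoming values are true -/
def andGate (s : Multiset Bool) : Bool := decide (Multiset.count false s = 0)

/-- the NAND gate: some incoming value is false -/
def nandGate (s : Multiset Bool) : Bool := decide (Multiset.count false s ≠ 0)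

/-- a gate without incoming wires which computes a constant -/
def cstGate : Bool → Multiset Bool → Bool
  | true => andGate
  | false => orGate

lemma cstGate_zero (v : Bool) : cstGate v 0 = v := by cases v <;> rfl

/-- the gates of `N'` are gates of `N` or AND, OR, NAND gates -/
def OnlyNew {I I' Gt Gt' : Type} (N : Net I Bool Gt) (N' : Net I' Bool Gt') : Prop :=
  ∀ g', N'.F g' = andGate ∨ N'.F g' = orGate ∨ N'.F g' = nandGate ∨ ∃ g, N'.F g' = N.F g

lemma OnlyNew.trans {I I' I'' Gt Gt' Gt'' : Type} {N : Net I Bool Gt} {N' : Net I' Bool Gt'}
    {N'' : Net I'' Bool Gt''} (h : OnlyNew N N') (h' : OnlyNew N' N'') : OnlyNew N N'' := by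
  intro g
  rcases h' g with h1 | h1 | h1 | ⟨g', h1⟩
  · exact Or.inl h1
  · exact Or.inr (Or.inl h1)
  · exact Or.inr (Or.inr (Or.inl h1))
  · rw [h1]
    exact h g'

/-- gates after the elimination -/
def eFB (e : Y' → Y ⊕ Z) (v : Z → Bool) : Option (I ⊕ Y') → (Multiset Bool → Bool) → Multiset Bool → Bool
  | some (Sum.inl _), F => F
  | some (Sum.inr y), F => Sum.elim (fun _ => F) (fun z => cstGate (v z)) (e y)
  | none, F => F

open Classical in
/-- The guess inputs `y` with `e y` in `Z` are replaced by constants, in all ways `enc p`, `p : P`, and the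
outputs of the copies are combined by the gate `Fo`. -/
noncomputable def elimB (N : Net (I ⊕ Y') Bool Gt) (e : Y' → Y ⊕ Z) (enc : P → Z → Bool) (Fo : Multiset Bool → Bool) :
    Net (I ⊕ Y) Bool (Option (P × Gt)) where
  inp
    | none => none
    | some x => eInp e (N.inp x.2)
  w
    | none, _ => 0
    | some x, none => if x.2 = N.out then 1 else 0
    | some x, some y => if x.1 = y.1 then (match N.inp y.2 with | none => N.w x.2 y.2 | some _ => 0) else 0
  F
    | none => Fo
    | some x => eFB e (enc x.1) (N.inp x.2) (N.F x.2)
  out := none
  rank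
    | none => N.rank N.out + 1
    | some x => N.rank x.2
  acyc := by
    intro h g hw
    rcases h with _ | h
    · exact absurd hw (lt_irrefl _)
    · rcases g with _ | g
      · have hw' : 0 < (if h.2 = N.out then 1 else 0) := hw
        split_ifs at hw' with h1
        · show N.rank h.2 < N.rank N.out + 1
          rw [h1]; exact Nat.lt_succ_self _
        · exact absurd hw' (lt_irrefl _)
      · have hw' : 0 < (if h.1 = g.1 then (match N.inp g.2 with | none => N.w h.2 g.2 | some _ => 0) else 0) := hw
        split_ifs at hw' with h1
        · cases hi : N.inp g.2 with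
          | none => rw [hi] at hw'; exact N.acyc _ _ hw'
          | some i => rw [hi] at hw'; exact absurd hw' (lt_irrefl _)
        · exact absurd hw' (lt_irrefl _)

lemma elimB_val [Fintype P] (N : Net (I ⊕ Y') Bool Gt) (e : Y' → Y ⊕ Z) (enc : P → Z → Bool)
    (Fo : Multiset Bool → Bool) (x : I → Bool) (y : Y → Bool) (p : P) :
    ∀ (k : ℕ) (g : Gt), N.rank g = k →
      (elimB N e enc Fo).val (inpt x y) (some (p, g)) =
        N.val (inpt x (fun y' => Sum.elim y (enc p) (e y'))) g := by
  classical
  intro k
  induction k using Nat.strong_induction_on with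
  | _ k ih =>
    intro g hg
    have h0 : (elimB N e enc Fo).inp (some (p, g)) = eInp e (N.inp g) := rfl
    cases hi : N.inp g with
    | some i =>
      rw [hi] at h0
      rcases i with i | j
      · rw [Net.val_some _ _ h0, Net.val_some _ _ hi]
        rfl
      · cases he : e j with
        | inl y0 =>
          have h1 : (elimB N e enc Fo).inp (some (p, g)) = some (Sum.inr y0) := by
            rw [h0]
            show Sum.elim _ _ (e j) = _
            rw [he]
            rfl
          rw [Net.val_some _ _ h1, Net.val_some _ _ hi]
          show y y0 = Sum.elim y (enc p) (e j)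
          rw [he]
          rfl
        | inr z =>
          have h1 : (elimB N e enc Fo).inp (some (p, g)) = none := by
            rw [h0]
            show Sum.elim _ _ (e j) = _
            rw [he]
            rfl
          rw [Net.val_none _ _ h1, Net.val_some _ _ hi]
          have h5 : (∑ h, (elimB N e enc Fo).w h (some (p, g)) •
              ({(elimB N e enc Fo).val (inpt x y) h} : Multiset Bool)) = 0 := by
            refine Finset.sum_eq_zero fun h _ => ?_
            have h6 : (elimB N e enc Fo).w h (some (p, g)) = 0 := by
              rcases h with _ | ⟨p', h⟩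
              · rfl
              · show (if p' = p then (match N.inp g with | none => N.w h g | some _ => 0) else 0) = 0
                rw [hi]
                exact ite_self 0
            rw [h6, zero_smul]
          rw [h5]
          show eFB e (enc p) (N.inp g) (N.F g) 0 = Sum.elim y (enc p) (e j)
          rw [hi]
          show Sum.elim (fun _ => N.F g) (fun z => cstGate (enc p z)) (e j) 0 = Sum.elim y (enc p) (e j)
          rw [he]
          exact cstGate_zero _
    | none =>
      rw [hi] at h0
      have h1 : (elimB N e enc Fo).inp (some (p, g)) = none := h0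
      rw [Net.val_none _ _ h1, Net.val_none _ _ hi]
      have hF : (elimB N e enc Fo).F (some (p, g)) = N.F g := by
        show eFB e (enc p) (N.inp g) (N.F g) = _
        rw [hi]
        rfl
      rw [hF]
      congr 1
      rw [Fintype.sum_option]
      have h2 : (elimB N e enc Fo).w none (some (p, g)) = 0 := rfl
      rw [h2, zero_smul, zero_add, Fintype.sum_prod_type, Finset.sum_eq_single p]
      · refine Finset.sum_congr rfl fun h _ => ?_
        have h3 : (elimB N e enc Fo).w (some (p, h)) (some (p, g)) = N.w h g := by
          show (if p = p then (match N.inp g with | none => N.w h g | some _ => 0) else 0) = _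
          rw [if_pos rfl, hi]
        rw [h3]
        by_cases hw : 0 < N.w h g
        · rw [ih (N.rank h) (by rw [← hg]; exact N.acyc _ _ hw) h rfl]
        · have : N.w h g = 0 := by omega
          rw [this, zero_smul, zero_smul]
      · intro p' _ hp'
        refine Finset.sum_eq_zero fun h _ => ?_
        have h3 : (elimB N e enc Fo).w (some (p', h)) (some (p, g)) = 0 := if_neg hp'
        rw [h3, zero_smul]
      · intro h
        exact absurd (Finset.mem_univ _) h

lemma elimB_eval [Fintype P] (N : Net (I ⊕ Y') Bool Gt) (e : Y' → Y ⊕ Z) (enc : P → Z → Bool)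
    (Fo : Multiset Bool → Bool) (x : I → Bool) (y : Y → Bool) :
    (elimB N e enc Fo).eval (inpt x y) =
      Fo (∑ p : P, {N.eval (inpt x (fun y' => Sum.elim y (enc p) (e y')))}) := by
  classical
  have h1 : (elimB N e enc Fo).inp none = none := rfl
  show (elimB N e enc Fo).val (inpt x y) none = _
  rw [Net.val_none _ _ h1]
  show Fo _ = _
  congr 1
  rw [Fintype.sum_option]
  have h2 : (elimB N e enc Fo).w none none = 0 := rfl
  rw [h2, zero_smul, zero_add, Fintype.sum_prod_type]
  refine Finset.sum_congr rfl fun p _ => ?_
  rw [Finset.sum_eq_single N.out]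
  · have h4 : (elimB N e enc Fo).w (some (p, N.out)) none = 1 := if_pos rfl
    rw [h4, one_smul, elimB_val N e enc Fo x y p _ _ rfl]
    rfl
  · intro h _ hh
    have h4 : (elimB N e enc Fo).w (some (p, h)) none = 0 := if_neg hh
    rw [h4, zero_smul]
  · intro h
    exact absurd (Finset.mem_univ _) h

lemma elimB_aut {N : Net (I ⊕ Y') Bool Gt} {e : Y' → Y ⊕ Z} {enc : P → Z → Bool} {Fo : Multiset Bool → Bool}
    {q : Equiv.Perm I} {s' : Equiv.Perm Y'} {φ : Equiv.Perm Gt} (h : N.IsAut (Equiv.sumCongr q s') φ)
    (s : Equiv.Perm Y) (t : Equiv.Perm Z) (hs : ∀ y, e (s' y) = Sum.map s t (e y))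
    (π : Equiv.Perm P) (hπ : ∀ p z, enc (π p) (t z) = enc p z) :
    (elimB N e enc Fo).IsAut (Equiv.sumCongr q s) (Equiv.optionCongr (π.prodCongr φ)) := by
  classical
  have h0 : ∀ g, N.inp (φ g) = (N.inp g).map (Equiv.sumCongr q s') := h.inp
  refine ⟨?_, ?_, ?_, rfl⟩
  · intro g
    rcases g with _ | ⟨p, g⟩
    · rfl
    · show eInp e (N.inp (φ g)) = (eInp e (N.inp g)).map (Equiv.sumCongr q s)
      rw [h0]
      cases hi : N.inp g with
      | none => rfl
      | some i =>
        rcases i with i | j
        · rfl
        · show Sum.elim _ _ (e (s' j)) = (Sum.elim _ _ (e j) : Option (I ⊕ Y)).map (Equiv.sumCongr q s)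
          rw [hs]
          cases e j <;> rfl
  · intro k g
    rcases k with _ | ⟨p, k⟩
    · rcases g with _ | ⟨p', g⟩ <;> rfl
    · rcases g with _ | ⟨p', g⟩
      · show (if φ k = N.out then 1 else 0) = if k = N.out then 1 else 0
        by_cases hk : k = N.out
        · rw [if_pos hk, if_pos (by rw [hk, h.out])]
        · rw [if_neg hk, if_neg (fun h' => hk (φ.injective (h'.trans h.out.symm)))]
      · show (if π p = π p' then (match N.inp (φ g) with | none => N.w (φ k) (φ g) | some _ => 0) else 0) =
          if p = p' then (match N.inp g with | none => N.w k g | some _ => 0) else 0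
        by_cases hp : p = p'
        · rw [if_pos hp, if_pos (by rw [hp]), h0]
          cases hi : N.inp g with
          | none => exact h.w k g
          | some i => rfl
        · rw [if_neg hp, if_neg (fun h' => hp (π.injective h'))]
  · intro g
    rcases g with _ | ⟨p, g⟩
    · rfl
    · show eFB e (enc (π p)) (N.inp (φ g)) (N.F (φ g)) = eFB e (enc p) (N.inp g) (N.F g)
      rw [h0, h.F]
      cases hi : N.inp g with
      | none => rfl
      | some i =>
        rcases i with i | j
        · rfl
        · show Sum.elim (fun _ => N.F g) (fun z => cstGate (enc (π p) z)) (e (s' j)) =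
            Sum.elim (fun _ => N.F g) (fun z => cstGate (enc p z)) (e j)
          rw [hs]
          cases e j with
          | inl y0 => rfl
          | inr z => exact congrArg cstGate (hπ p z)

lemma elimB_new (N : Net (I ⊕ Y') Bool Gt) (e : Y' → Y ⊕ Z) (enc : P → Z → Bool) :
    OnlyNew N (elimB N e enc orGate) := by
  intro g
  rcases g with _ | ⟨p, g⟩
  · exact Or.inr (Or.inl rfl)
  · have h : (elimB N e enc orGate).F (some (p, g)) = eFB e (enc p) (N.inp g) (N.F g) := rfl
    rw [h]
    cases hi : N.inp g with
    | none => exact Or.inr (Or.inr (Or.inr ⟨g, rfl⟩))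
    | some i =>
      rcases i with i | j
      · exact Or.inr (Or.inr (Or.inr ⟨g, rfl⟩))
      · cases he : e j with
        | inl y0 =>
          refine Or.inr (Or.inr (Or.inr ⟨g, ?_⟩))
          show Sum.elim _ _ (e j) = _
          rw [he]
          rfl
        | inr z =>
          have h1 : eFB e (enc p) (some (Sum.inr j) : Option (I ⊕ Y')) (N.F g) = cstGate (enc p z) := by
            show Sum.elim _ _ (e j) = _
            rw [he]
            rfl
          rw [h1]
          cases enc p z
          · exact Or.inr (Or.inl rfl)
          · exact Or.inl rfl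

end H522R3.ND
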