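import Pool.Agent.H522R3.ND.Ver
import Pool.Agent.H522R3.ND.Elim

set_option autoImplicit false
set_option linter.unusedSectionVars false

/-!
Guessing the values of some of the variables and trying all values of the other ones.
-/

namespace H522R3.ND

open Finset Pool.Agent.H30R2 Pool.Agent.H30R2.PS Pool.Agent.H30R2.NS

variable {k : ℕ} {W U X : Type} [Fintype W] [DecidableEq W] [Fintype U] [DecidableEq U]

/-- splitting of the literals -/
def spl : (W ⊕ U) × ZMod 2 → (W × ZMod 2) ⊕ (U × ZMod 2)
  | (Sum.inl w, b) => Sum.inl (w, b)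
  | (Sum.inr u, b) => Sum.inr (u, b)

lemma spl_lit (a : W ⊕ U → ZMod 2) (p : (W ⊕ U) × ZMod 2) :
    spl (lit a p) = Sum.map (lit fun w => a (Sum.inl w)) (lit fun u => a (Sum.inr u)) (spl p) := by
  rcases p with ⟨w | u, b⟩ <;> rfl

lemma enc_shift (b : U → ZMod 2) (p : U → ZMod 2) (z : U × ZMod 2) :
    oneHot (Equiv.addRight b p) (lit b z) = oneHot p z := by
  show decide (p z.1 + b z.1 = z.2 + b z.1) = decide (p z.1 = z.2)
  rw [decide_eq_decide]
  exact add_left_inj _

/-- guesses for the variables `W`, exhaustive search for the variables `U` -/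
noncomputable def trade (ι : W ⊕ U → X) (ok : ℕ → Bool) :
    PS.Net (Clause k X ⊕ (W × ZMod 2)) Bool (Option ((U → ZMod 2) × VGate k (W ⊕ U))) :=
  elim (ver ι ok) spl oneHot orGate

lemma trade_sym (ι : W ⊕ U → X) (ok : ℕ → Bool) (a : X → ZMod 2) :
    SymAt (trade (k := k) ι ok) a (lit fun w => a (ι (Sum.inl w))) := by
  refine ⟨_, elim_aut (ver_aut ι ok a) (lit fun w => a (ι (Sum.inl w))) (lit fun u => a (ι (Sum.inr u)))
    (fun y => spl_lit (fun v => a (ι v)) y) (Equiv.addRight fun u => a (ι (Sum.inr u)))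
    (fun p z => enc_shift _ p z)⟩

lemma trade_exists (ι : W ⊕ U → X) (ok : ℕ → Bool) (Φ : Set (Clause k X)) :
    (∃ y, (trade (k := k) ι ok).eval (data true false Φ y) = true) ↔
      ∃ x : W ⊕ U → ZMod 2, ∀ c : Clause k (W ⊕ U), mapc ι c ∈ Φ →
        ok ((univ : Finset (Fin k)).filter fun l => x (c l).1 = (c l).2).card = true := by
  classical
  rw [← ver_exists]
  have key : ∀ y, (trade (k := k) ι ok).eval (data true false Φ y) = true ↔
      ∃ p : U → ZMod 2, (ver (k := k) ι ok).eval
        (data true false Φ (fun y' => Sum.elim y (oneHot p) (spl y'))) = true := by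
    intro y
    have h := elim_eval (ver (k := k) ι ok) (spl : (W ⊕ U) × ZMod 2 → _) (oneHot (V := U)) orGate
      (fun c => if c ∈ Φ then true else false) y
    have h' : (trade (k := k) ι ok).eval (data true false Φ y) = orGate (∑ p : U → ZMod 2,
        {(ver (k := k) ι ok).eval (data true false Φ (fun y' => Sum.elim y (oneHot p) (spl y')))}) := by
      refine Eq.trans ?_ h
      rfl
    rw [h', orGate_sum]
  constructor
  · rintro ⟨y, hy⟩
    obtain ⟨p, hp⟩ := (key y).mp hy
    exact ⟨_, hp⟩
  · rintro ⟨y, hy⟩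
    have hy' := (ver_eval ι ok Φ y).mp hy
    obtain ⟨x, rfl⟩ := exists_oneHot y hy'.2
    refine ⟨oneHot fun w => x (Sum.inl w), (key _).mpr ⟨fun u => x (Sum.inr u), ?_⟩⟩
    have h1 : (fun y' : (W ⊕ U) × ZMod 2 => Sum.elim (oneHot fun w => x (Sum.inl w))
        (oneHot fun u => x (Sum.inr u)) (spl y')) = oneHot x := by
      funext p
      rcases p with ⟨w | u, b⟩ <;> rfl
    rw [h1]
    exact hy

lemma trade_card : Nat.card (Option ((U → ZMod 2) × VGate k (W ⊕ U))) =
    2 ^ Fintype.card U * (2 * (2 * (Fintype.card W + Fintype.card U)) ^ k +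
      3 * (Fintype.card W + Fintype.card U) + 1) + 1 := by
  rw [Nat.card_eq_fintype_card, Fintype.card_option, Fintype.card_prod, card_VGate, Fintype.card_fun,
    ZMod.card, Fintype.card_sum]

/-- removing an invariant set of guess inputs -/
theorem remove {k : ℕ} {X Y Z Gt : Type} [Fintype Gt] [Fintype Z] [DecidableEq Z]
    (N : PS.Net (Clause k X ⊕ (Y ⊕ Z)) Bool Gt) :
    ∃ N' : PS.Net (Clause k X ⊕ Y) Bool (Option ((Z → Bool) × Gt)),
      (∀ a s t, SymAt N a (Equiv.sumCongr s t) → SymAt N' a s) ∧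
      ∀ Φ, (∃ y, N'.eval (data true false Φ y) = true) ↔ ∃ y, N.eval (data true false Φ y) = true := by
  classical
  refine ⟨elim N id (fun p => p) orGate, ?_, ?_⟩
  · rintro a s t ⟨φ, hφ⟩
    refine ⟨_, elim_aut hφ s t (fun y => ?_) (Equiv.arrowCongr t (Equiv.refl Bool)) (fun p z => ?_)⟩
    · rcases y with y | z <;> rfl
    · show p (t.symm (t z)) = p z
      rw [Equiv.symm_apply_apply]
  · intro Φ
    have key : ∀ y, (elim N id (fun p : Z → Bool => p) orGate).eval (data true false Φ y) = true ↔
        ∃ p : Z → Bool, N.eval (data true false Φ (Sum.elim y p)) = true := by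
      intro y
      have h := elim_eval N (id : Y ⊕ Z → Y ⊕ Z) (fun p : Z → Bool => p) orGate
        (fun c => if c ∈ Φ then true else false) y
      have h' : (elim N id (fun p : Z → Bool => p) orGate).eval (data true false Φ y) =
          orGate (∑ p : Z → Bool, {N.eval (data true false Φ (Sum.elim y p))}) := by
        refine Eq.trans ?_ h
        rfl
      rw [h', orGate_sum]
    constructor
    · rintro ⟨y, hy⟩
      obtain ⟨p, hp⟩ := (key y).mp hy
      exact ⟨_, hp⟩
    · rintro ⟨y, hy⟩
      refine ⟨fun i => y (Sum.inl i), (key _).mpr ⟨fun z => y (Sum.inr z), ?_⟩⟩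
      have h1 : Sum.elim (fun i => y (Sum.inl i)) (fun z => y (Sum.inr z)) = y := by
        funext p
        rcases p with w | u <;> rfl
      rw [h1]
      exact hy

end H522R3.ND
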