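import Pool.Agent.H522R3.ND.Ver
import Pool.Agent.H522R3.ND.ElimB
import Pool.Agent.H522R3.ND.Trade

set_option autoImplicit false
set_option linter.unusedSectionVars false

/-!
Symmetrisation of nondeterministic networks: guess a frame (which literal of each variable is called
positive) and run the given network in this frame.
-/

namespace H522R3.ND

open Finset Pool.Agent.H30R2 Pool.Agent.H30R2.PS Pool.Agent.H30R2.NS

/-- the gates of the symmetrised network -/
inductive FGate (k : ℕ) (X Gt : Type)
  | inC (c : Clause k X)
  | gs (p : X × ZMod 2)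
  | at1 (v : X)
  | no2 (v : X)
  | mux (c : Clause k X) (β : Fin k → ZMod 2)
  | old (g : Gt)
  | out

/-- the gates as a sum type -/
def FGate.equiv (k : ℕ) (X Gt : Type) :
    FGate k X Gt ≃ Clause k X ⊕ (X × ZMod 2) ⊕ X ⊕ X ⊕ (Clause k X × (Fin k → ZMod 2)) ⊕ Gt ⊕ Unit where
  toFun
    | .inC c => Sum.inl c
    | .gs p => Sum.inr (Sum.inl p)
    | .at1 v => Sum.inr (Sum.inr (Sum.inl v))
    | .no2 v => Sum.inr (Sum.inr (Sum.inr (Sum.inl v)))
    | .mux c β => Sum.inr (Sum.inr (Sum.inr (Sum.inr (Sum.inl (c, β)))))
    | .old g => Sum.inr (Sum.inr (Sum.inr (Sum.inr (Sum.inr (Sum.inl g)))))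
    | .out => Sum.inr (Sum.inr (Sum.inr (Sum.inr (Sum.inr (Sum.inr ())))))
  invFun
    | Sum.inl c => .inC c
    | Sum.inr (Sum.inl p) => .gs p
    | Sum.inr (Sum.inr (Sum.inl v)) => .at1 v
    | Sum.inr (Sum.inr (Sum.inr (Sum.inl v))) => .no2 v
    | Sum.inr (Sum.inr (Sum.inr (Sum.inr (Sum.inl (c, β))))) => .mux c β
    | Sum.inr (Sum.inr (Sum.inr (Sum.inr (Sum.inr (Sum.inl g))))) => .old g
    | Sum.inr (Sum.inr (Sum.inr (Sum.inr (Sum.inr (Sum.inr ()))))) => .out
  left_inv g := by cases g <;> rfl
  right_inv g := by rcases g with _ | _ | _ | _ | _ | _ | _ <;> rfl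

instance (k : ℕ) (X Gt : Type) [Fintype X] [DecidableEq X] [Fintype Gt] : Fintype (FGate k X Gt) :=
  Fintype.ofEquiv _ (FGate.equiv k X Gt).symm

variable {k : ℕ} {X Y Gt : Type} [Fintype X] [DecidableEq X] [Fintype Gt]

lemma sum_FGate {M : Type} [AddCommMonoid M] (f : FGate k X Gt → M) :
    ∑ h, f h = ∑ c, f (.inC c) + (∑ p, f (.gs p) + (∑ v, f (.at1 v) + (∑ v, f (.no2 v) +
      (∑ x : Clause k X × (Fin k → ZMod 2), f (.mux x.1 x.2) + (∑ g, f (.old g) + f .out))))) := by
  have hu : ∀ F : Unit → M, ∑ u, F u = F () := fun F => by simp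
  rw [← Equiv.sum_comp (FGate.equiv k X Gt).symm, Fintype.sum_sum_type, Fintype.sum_sum_type,
    Fintype.sum_sum_type, Fintype.sum_sum_type, Fintype.sum_sum_type, Fintype.sum_sum_type, hu]
  rfl

lemma card_FGate : Fintype.card (FGate k X Gt) =
    Fintype.card Gt + (2 ^ k + 1) * (2 * Fintype.card X) ^ k + 4 * Fintype.card X + 1 := by
  rw [Fintype.card_congr (FGate.equiv k X Gt)]
  simp only [Fintype.card_sum, Fintype.card_prod, Fintype.card_fun, ZMod.card, Fintype.card_fin,
    Fintype.card_unit]
  ring

/-- the clause `c` in the frame of signs `β` -/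
def rel (c : Clause k X) (β : Fin k → ZMod 2) : Clause k X := fun l => ((c l).1, (c l).2 + β l)

/-- input names of the old gates -/
def oInp : Option (Clause k X ⊕ Y) → Option (Clause k X ⊕ (Y ⊕ (X × ZMod 2)))
  | some (Sum.inl _) => none
  | some (Sum.inr y) => some (Sum.inr (Sum.inl y))
  | none => none

/-- wires from the multiplexers to the old gates -/
def oMux (c : Clause k X) (β : Fin k → ZMod 2) : Option (Clause k X ⊕ Y) → ℕ
  | some (Sum.inl c') => if (fun l => ((c l).1, β l)) = c' then 1 else 0
  | some (Sum.inr _) => 0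
  | none => 0

/-- wires between old gates -/
def oW (w : ℕ) : Option (Clause k X ⊕ Y) → ℕ
  | some _ => 0
  | none => w

/-- old gates -/
def oF (F : Multiset Bool → Bool) : Option (Clause k X ⊕ Y) → Multiset Bool → Bool
  | some (Sum.inl _) => orGate
  | some (Sum.inr _) => F
  | none => F

open Classical in
/-- the symmetrised network -/
noncomputable def frame (N : PS.Net (Clause k X ⊕ Y) Bool Gt) :
    PS.Net (Clause k X ⊕ (Y ⊕ (X × ZMod 2))) Bool (FGate k X Gt) where
  inp
    | .inC c => some (Sum.inl c)
    | .gs p => some (Sum.inr (Sum.inr p))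
    | .at1 _ => none
    | .no2 _ => none
    | .mux _ _ => none
    | .old g => oInp (N.inp g)
    | .out => none
  w
    | .inC c, .mux c' _ => if c = c' then 1 else 0
    | .gs p, .mux c β => occ p (rel c β)
    | .gs p, .at1 v => if p.1 = v then 1 else 0
    | .gs p, .no2 v => if p.1 = v then 1 else 0
    | .at1 _, .out => 1
    | .no2 _, .out => 1
    | .mux c β, .old g => oMux c β (N.inp g)
    | .old h, .old g => oW (N.w h g) (N.inp g)
    | .old g, .out => if g = N.out then 1 else 0
    | _, _ => 0
  F
    | .at1 _ => orGate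
    | .no2 _ => nandGate
    | .old g => oF (N.F g) (N.inp g)
    | _ => andGate
  out := .out
  rank
    | .inC _ => 0
    | .gs _ => 0
    | .at1 _ => 1
    | .no2 _ => 1
    | .mux _ _ => 1
    | .old g => N.rank g + 2
    | .out => N.rank N.out + 3
  acyc := by
    intro h g hw
    cases h with
    | inC c => cases g <;> first | exact absurd hw (lt_irrefl _) | norm_num
    | gs p => cases g <;> first | exact absurd hw (lt_irrefl _) | norm_num
    | at1 v => cases g <;> first | exact absurd hw (lt_irrefl _) | (show 1 < N.rank N.out + 3; omega)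
    | no2 v => cases g <;> first | exact absurd hw (lt_irrefl _) | (show 1 < N.rank N.out + 3; omega)
    | mux c β => cases g <;> first | exact absurd hw (lt_irrefl _) | (show 1 < N.rank _ + 2; omega)
    | old h =>
      cases g with
      | old g =>
        have hw' : 0 < oW (N.w h g) (N.inp g) := hw
        show N.rank h + 2 < N.rank g + 2
        cases hi : N.inp g with
        | some i => rw [hi] at hw'; exact absurd hw' (lt_irrefl _)
        | none =>
          rw [hi] at hw'
          have := N.acyc _ _ hw'
          omega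
      | out =>
        have hw' : 0 < (if h = N.out then 1 else 0) := hw
        show N.rank h + 2 < N.rank N.out + 3
        split_ifs at hw' with h1
        · rw [h1]; omega
        · exact absurd hw' (lt_irrefl _)
      | _ => exact absurd hw (lt_irrefl _)
    | out => cases g <;> exact absurd hw (lt_irrefl _)

variable (N : PS.Net (Clause k X ⊕ Y) Bool Gt) (Φ : Set (Clause k X)) (y : Y → Bool) (z : X × ZMod 2 → Bool)

/-- input values -/
noncomputable def fd (Φ : Set (Clause k X)) (y : Y → Bool) (z : X × ZMod 2 → Bool) :
    Clause k X ⊕ (Y ⊕ (X × ZMod 2)) → Bool := data true false Φ (Sum.elim y z)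

lemma frame_inC (c : Clause k X) : (frame N).val (fd Φ y z) (.inC c) = true ↔ c ∈ Φ := by
  classical
  rw [Net.val_some (frame N) _ (g := .inC c) (i := Sum.inl c) rfl]
  show (if c ∈ Φ then true else false) = true ↔ _
  by_cases h : c ∈ Φ
  · rw [if_pos h]; exact ⟨fun _ => h, fun _ => rfl⟩
  · rw [if_neg h]; exact ⟨fun h' => absurd h' (by decide), fun h' => absurd h' h⟩

lemma frame_gs (p : X × ZMod 2) : (frame N).val (fd Φ y z) (.gs p) = z p := by
  rw [Net.val_some (frame N) _ (g := .gs p) (i := Sum.inr (Sum.inr p)) rfl]
  rfl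

lemma frame_mux (c : Clause k X) (β : Fin k → ZMod 2) : (frame N).val (fd Φ y z) (.mux c β) = true ↔
    c ∈ Φ ∧ ∀ l, z (rel c β l) = true := by
  classical
  rw [Net.val_none (frame N) _ (g := .mux c β) rfl]
  show decide (Multiset.count false _ = 0) = true ↔ _
  rw [count_false, sum_FGate, decide_eq_true_iff]
  have h1 : ∑ c', (frame N).w (.inC c') (.mux c β) * (!(frame N).val (fd Φ y z) (.inC c')).toNat =
      if c ∈ Φ then 0 else 1 := by
    rw [Finset.sum_eq_single c]
    · have h2 : (frame N).w (.inC c) (.mux c β) = 1 := if_pos rfl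
      rw [h2]
      by_cases h : c ∈ Φ
      · rw [(frame_inC N Φ y z c).mpr h, if_pos h]
        rfl
      · have h3 : (frame N).val (fd Φ y z) (.inC c) = false := by
          rw [← Bool.not_eq_true]
          exact fun h' => h ((frame_inC N Φ y z c).mp h')
        rw [h3, if_neg h]
        rfl
    · intro c' _ hc'
      have h2 : (frame N).w (.inC c') (.mux c β) = 0 := if_neg hc'
      rw [h2, zero_mul]
    · intro h
      exact absurd (mem_univ _) h
  have h2 : ∑ p, (frame N).w (.gs p) (.mux c β) * (!(frame N).val (fd Φ y z) (.gs p)).toNat =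
      nTrue (fun p => !z p) (rel c β) := by
    rw [← sum_occ]
    refine Finset.sum_congr rfl fun p _ => ?_
    rw [frame_gs]
    rfl
  have h3 : ∑ v, (frame N).w (.at1 v) (.mux c β) * (!(frame N).val (fd Φ y z) (.at1 v)).toNat = 0 :=
    Finset.sum_eq_zero fun c' _ => zero_mul _
  have h3' : ∑ v, (frame N).w (.no2 v) (.mux c β) * (!(frame N).val (fd Φ y z) (.no2 v)).toNat = 0 :=
    Finset.sum_eq_zero fun c' _ => zero_mul _
  have h4 : ∑ x : Clause k X × (Fin k → ZMod 2), (frame N).w (.mux x.1 x.2) (.mux c β) *
      (!(frame N).val (fd Φ y z) (.mux x.1 x.2)).toNat = 0 :=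
    Finset.sum_eq_zero fun c' _ => zero_mul _
  have h5 : ∑ g, (frame N).w (.old g) (.mux c β) * (!(frame N).val (fd Φ y z) (.old g)).toNat = 0 :=
    Finset.sum_eq_zero fun c' _ => zero_mul _
  have h6 : (frame N).w .out (.mux c β) * (!(frame N).val (fd Φ y z) .out).toNat = 0 := zero_mul _
  rw [h1, h2, h3, h3', h4, h5, h6]
  have h7 : nTrue (fun p => !z p) (rel c β) = 0 ↔ ∀ l, z (rel c β l) = true := by
    unfold nTrue
    rw [Finset.card_eq_zero, Finset.filter_eq_empty_iff]
    constructor
    · intro h l
      have := h (mem_univ l)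
      rw [Bool.not_eq_true', Bool.not_eq_false] at this
      exact this
    · intro h l _
      show ¬ (!z (rel c β l)) = true
      rw [h l]
      decide
  rw [← h7]
  by_cases h : c ∈ Φ
  · rw [if_pos h]
    constructor
    · intro h'; exact ⟨h, by omega⟩
    · rintro ⟨_, h'⟩; omega
  · rw [if_neg h]
    constructor
    · intro h'; omega
    · rintro ⟨h', _⟩; exact absurd h' h

/-- the formula seen in the frame of the assignment `t` -/
def seen (t : X → ZMod 2) (Φ : Set (Clause k X)) : Set (Clause k X) := {c | neg t c ∈ Φ}

lemma frame_old (t : X → ZMod 2) :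
    ∀ (m : ℕ) (g : Gt), N.rank g = m → (frame N).val (fd Φ y (oneHot t)) (.old g) =
      N.val (data true false (seen t Φ) y) g := by
  classical
  intro m
  induction m using Nat.strong_induction_on with
  | _ m ih =>
    intro g hg
    have h0 : (frame N).inp (.old g) = oInp (N.inp g) := rfl
    cases hi : N.inp g with
    | some i =>
      rw [hi] at h0
      rcases i with c' | j
      · have h1 : (frame N).inp (.old g) = none := h0
        rw [Net.val_none _ _ h1, Net.val_some _ _ hi]
        show oF (N.F g) (N.inp g) _ = (if c' ∈ seen t Φ then true else false)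
        rw [hi]
        show orGate _ = _
        unfold orGate
        rw [count_true, sum_FGate]
        have e1 : ∑ c, (frame N).w (.inC c) (.old g) * ((frame N).val (fd Φ y (oneHot t)) (.inC c)).toNat = 0 :=
          Finset.sum_eq_zero fun c' _ => zero_mul _
        have e2 : ∑ p, (frame N).w (.gs p) (.old g) * ((frame N).val (fd Φ y (oneHot t)) (.gs p)).toNat = 0 :=
          Finset.sum_eq_zero fun c' _ => zero_mul _
        have e3 : ∑ v, (frame N).w (.at1 v) (.old g) * ((frame N).val (fd Φ y (oneHot t)) (.at1 v)).toNat = 0 :=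
          Finset.sum_eq_zero fun c' _ => zero_mul _
        have e3' : ∑ v, (frame N).w (.no2 v) (.old g) * ((frame N).val (fd Φ y (oneHot t)) (.no2 v)).toNat = 0 :=
          Finset.sum_eq_zero fun c' _ => zero_mul _
        have e5 : ∑ h, (frame N).w (.old h) (.old g) * ((frame N).val (fd Φ y (oneHot t)) (.old h)).toNat = 0 := by
          refine Finset.sum_eq_zero fun h _ => ?_
          have : (frame N).w (.old h) (.old g) = 0 := by
            show oW (N.w h g) (N.inp g) = 0
            rw [hi]
            rfl
          rw [this, zero_mul]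
        have e6 : (frame N).w .out (.old g) * ((frame N).val (fd Φ y (oneHot t)) .out).toNat = 0 := zero_mul _
        rw [e1, e2, e3, e3', e5, e6]
        have key : (∑ x : Clause k X × (Fin k → ZMod 2), (frame N).w (.mux x.1 x.2) (.old g) *
            ((frame N).val (fd Φ y (oneHot t)) (.mux x.1 x.2)).toNat ≠ 0) ↔ c' ∈ seen t Φ := by
          rw [ne_eq, Finset.sum_eq_zero_iff]
          have hwx : ∀ x : Clause k X × (Fin k → ZMod 2), (frame N).w (.mux x.1 x.2) (.old g) =
              if (fun l => ((x.1 l).1, x.2 l)) = c' then 1 else 0 := by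
            intro x
            show oMux x.1 x.2 (N.inp g) = _
            rw [hi]
            rfl
          constructor
          · intro h
            push Not at h
            obtain ⟨x, _, hx⟩ := h
            rw [hwx] at hx
            have hc : (fun l => ((x.1 l).1, x.2 l)) = c' := by
              by_contra hc
              rw [if_neg hc, zero_mul] at hx
              exact hx rfl
            rw [if_pos hc, one_mul] at hx
            have hv : (frame N).val (fd Φ y (oneHot t)) (.mux x.1 x.2) = true := by
              by_contra hv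
              rw [Bool.not_eq_true] at hv
              rw [hv] at hx
              exact hx rfl
            rw [frame_mux] at hv
            obtain ⟨hx1, hx2⟩ := hv
            show neg t c' ∈ Φ
            have hcc : neg t c' = x.1 := by
              funext l
              rw [neg_apply, ← hc]
              have h3 := hx2 l
              have h4 : t (x.1 l).1 = (x.1 l).2 + x.2 l := of_decide_eq_true h3
              refine Prod.ext rfl ?_
              show x.2 l + t (x.1 l).1 = (x.1 l).2
              rw [h4]
              generalize x.2 l = u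
              generalize (x.1 l).2 = v
              revert u v
              decide
            rw [hcc]
            exact hx1
          · intro h hcon
            have h1 := hcon (neg t c', fun l => (c' l).2) (mem_univ _)
            rw [hwx, if_pos (by funext l; rfl), one_mul] at h1
            have hv : (frame N).val (fd Φ y (oneHot t)) (.mux (neg t c') (fun l => (c' l).2)) = true := by
              rw [frame_mux]
              refine ⟨h, fun l => ?_⟩
              show decide (t (c' l).1 = ((c' l).2 + t (c' l).1) + (c' l).2) = true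
              rw [decide_eq_true_iff]
              generalize (c' l).2 = u
              generalize t (c' l).1 = v
              revert u v
              decide
            rw [hv] at h1
            exact one_ne_zero h1
        by_cases h : c' ∈ seen t Φ
        · rw [if_pos h, decide_eq_true_iff]
          have := key.mpr h
          omega
        · rw [if_neg h, decide_eq_false_iff_not]
          intro h'
          refine h (key.mp fun h'' => h' ?_)
          rw [h'']
          norm_num
      · have h1 : (frame N).inp (.old g) = some (Sum.inr (Sum.inl j)) := h0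
        rw [Net.val_some _ _ h1, Net.val_some _ _ hi]
        rfl
    | none =>
      rw [hi] at h0
      have h1 : (frame N).inp (.old g) = none := h0
      rw [Net.val_none _ _ h1, Net.val_none _ _ hi]
      show oF (N.F g) (N.inp g) _ = _
      rw [hi]
      show N.F g _ = N.F g _
      congr 1
      rw [sum_FGate]
      have e1 : ∑ c, (frame N).w (.inC c) (.old g) •
          ({(frame N).val (fd Φ y (oneHot t)) (.inC c)} : Multiset Bool) = 0 :=
        Finset.sum_eq_zero fun c' _ => zero_smul _ _
      have e2 : ∑ p, (frame N).w (.gs p) (.old g) •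
          ({(frame N).val (fd Φ y (oneHot t)) (.gs p)} : Multiset Bool) = 0 :=
        Finset.sum_eq_zero fun c' _ => zero_smul _ _
      have e3 : ∑ v, (frame N).w (.at1 v) (.old g) •
          ({(frame N).val (fd Φ y (oneHot t)) (.at1 v)} : Multiset Bool) = 0 :=
        Finset.sum_eq_zero fun c' _ => zero_smul _ _
      have e3' : ∑ v, (frame N).w (.no2 v) (.old g) •
          ({(frame N).val (fd Φ y (oneHot t)) (.no2 v)} : Multiset Bool) = 0 :=
        Finset.sum_eq_zero fun c' _ => zero_smul _ _
      have e4 : ∑ x : Clause k X × (Fin k → ZMod 2), (frame N).w (.mux x.1 x.2) (.old g) •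
          ({(frame N).val (fd Φ y (oneHot t)) (.mux x.1 x.2)} : Multiset Bool) = 0 := by
        refine Finset.sum_eq_zero fun x _ => ?_
        have : (frame N).w (.mux x.1 x.2) (.old g) = 0 := by
          show oMux x.1 x.2 (N.inp g) = 0
          rw [hi]
          rfl
        rw [this, zero_smul]
      have e6 : (frame N).w .out (.old g) •
          ({(frame N).val (fd Φ y (oneHot t)) .out} : Multiset Bool) = 0 := zero_smul _ _
      rw [e1, e2, e3, e3', e4, e6, zero_add, zero_add, zero_add, zero_add, zero_add, add_zero]
      refine Finset.sum_congr rfl fun h _ => ?_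
      have hw : (frame N).w (.old h) (.old g) = N.w h g := by
        show oW (N.w h g) (N.inp g) = _
        rw [hi]
        rfl
      rw [hw]
      by_cases hwt : 0 < N.w h g
      · rw [ih (N.rank h) (by rw [← hg]; exact N.acyc _ _ hwt) h rfl]
      · have : N.w h g = 0 := by omega
        rw [this, zero_smul, zero_smul]

lemma frame_at1 (v : X) : (frame N).val (fd Φ y z) (.at1 v) = true ↔
    (z (v, 0)).toNat + (z (v, 1)).toNat ≠ 0 := by
  classical
  rw [Net.val_none (frame N) _ (g := .at1 v) rfl]
  show decide (Multiset.count true _ ≠ 0) = true ↔ _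
  rw [count_true, sum_FGate, decide_eq_true_iff]
  have h1 : ∑ c', (frame N).w (.inC c') (.at1 v) * ((frame N).val (fd Φ y z) (.inC c')).toNat = 0 :=
    Finset.sum_eq_zero fun c' _ => zero_mul _
  have h2 : ∑ p, (frame N).w (.gs p) (.at1 v) * ((frame N).val (fd Φ y z) (.gs p)).toNat =
      (z (v, 0)).toNat + (z (v, 1)).toNat := by
    rw [← sum_zmod (fun p => (z p).toNat) v]
    refine Finset.sum_congr rfl fun p _ => ?_
    rw [frame_gs]
    show (if p.1 = v then 1 else 0) * (z p).toNat = _
    split_ifs
    · exact one_mul _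
    · exact zero_mul _
  have h3 : ∑ v', (frame N).w (.at1 v') (.at1 v) * ((frame N).val (fd Φ y z) (.at1 v')).toNat = 0 :=
    Finset.sum_eq_zero fun c' _ => zero_mul _
  have h3' : ∑ v', (frame N).w (.no2 v') (.at1 v) * ((frame N).val (fd Φ y z) (.no2 v')).toNat = 0 :=
    Finset.sum_eq_zero fun c' _ => zero_mul _
  have h4 : ∑ x : Clause k X × (Fin k → ZMod 2), (frame N).w (.mux x.1 x.2) (.at1 v) *
      ((frame N).val (fd Φ y z) (.mux x.1 x.2)).toNat = 0 :=
    Finset.sum_eq_zero fun c' _ => zero_mul _
  have h5 : ∑ g, (frame N).w (.old g) (.at1 v) * ((frame N).val (fd Φ y z) (.old g)).toNat = 0 :=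
    Finset.sum_eq_zero fun c' _ => zero_mul _
  have h6 : (frame N).w .out (.at1 v) * ((frame N).val (fd Φ y z) .out).toNat = 0 := zero_mul _
  rw [h1, h2, h3, h3', h4, h5, h6]
  simp only [zero_add, add_zero]

lemma frame_no2 (v : X) : (frame N).val (fd Φ y z) (.no2 v) = true ↔
    (!z (v, 0)).toNat + (!z (v, 1)).toNat ≠ 0 := by
  classical
  rw [Net.val_none (frame N) _ (g := .no2 v) rfl]
  show decide (Multiset.count false _ ≠ 0) = true ↔ _
  rw [count_false, sum_FGate, decide_eq_true_iff]
  have h1 : ∑ c', (frame N).w (.inC c') (.no2 v) * (!(frame N).val (fd Φ y z) (.inC c')).toNat = 0 :=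
    Finset.sum_eq_zero fun c' _ => zero_mul _
  have h2 : ∑ p, (frame N).w (.gs p) (.no2 v) * (!(frame N).val (fd Φ y z) (.gs p)).toNat =
      (!z (v, 0)).toNat + (!z (v, 1)).toNat := by
    rw [← sum_zmod (fun p => (!z p).toNat) v]
    refine Finset.sum_congr rfl fun p _ => ?_
    rw [frame_gs]
    show (if p.1 = v then 1 else 0) * (!z p).toNat = _
    split_ifs
    · exact one_mul _
    · exact zero_mul _
  have h3 : ∑ v', (frame N).w (.at1 v') (.no2 v) * (!(frame N).val (fd Φ y z) (.at1 v')).toNat = 0 :=
    Finset.sum_eq_zero fun c' _ => zero_mul _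
  have h3' : ∑ v', (frame N).w (.no2 v') (.no2 v) * (!(frame N).val (fd Φ y z) (.no2 v')).toNat = 0 :=
    Finset.sum_eq_zero fun c' _ => zero_mul _
  have h4 : ∑ x : Clause k X × (Fin k → ZMod 2), (frame N).w (.mux x.1 x.2) (.no2 v) *
      (!(frame N).val (fd Φ y z) (.mux x.1 x.2)).toNat = 0 :=
    Finset.sum_eq_zero fun c' _ => zero_mul _
  have h5 : ∑ g, (frame N).w (.old g) (.no2 v) * (!(frame N).val (fd Φ y z) (.old g)).toNat = 0 :=
    Finset.sum_eq_zero fun c' _ => zero_mul _
  have h6 : (frame N).w .out (.no2 v) * (!(frame N).val (fd Φ y z) .out).toNat = 0 := zero_mul _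
  rw [h1, h2, h3, h3', h4, h5, h6]
  simp only [zero_add, add_zero]

lemma one_iff (b c : Bool) : b.toNat + c.toNat = 1 ↔ b.toNat + c.toNat ≠ 0 ∧ (!b).toNat + (!c).toNat ≠ 0 := by
  revert b c
  decide

lemma frame_eval : (frame N).eval (fd Φ y z) = true ↔
    ∃ t, z = oneHot t ∧ N.eval (data true false (seen t Φ) y) = true := by
  classical
  have main : (frame N).eval (fd Φ y z) = true ↔ (frame N).val (fd Φ y z) (.old N.out) = true ∧
      ∀ v, (z (v, 0)).toNat + (z (v, 1)).toNat = 1 := by
    show (frame N).val (fd Φ y z) .out = true ↔ _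
    rw [Net.val_none (frame N) _ (g := .out) rfl]
    show decide (Multiset.count false _ = 0) = true ↔ _
    rw [count_false, sum_FGate, decide_eq_true_iff]
    have h1 : ∑ c', (frame N).w (.inC c') .out * (!(frame N).val (fd Φ y z) (.inC c')).toNat = 0 :=
      Finset.sum_eq_zero fun c' _ => zero_mul _
    have h2 : ∑ p, (frame N).w (.gs p) .out * (!(frame N).val (fd Φ y z) (.gs p)).toNat = 0 :=
      Finset.sum_eq_zero fun c' _ => zero_mul _
    have h4 : ∑ x : Clause k X × (Fin k → ZMod 2), (frame N).w (.mux x.1 x.2) .out *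
        (!(frame N).val (fd Φ y z) (.mux x.1 x.2)).toNat = 0 :=
      Finset.sum_eq_zero fun c' _ => zero_mul _
    have h5 : ∑ g, (frame N).w (.old g) .out * (!(frame N).val (fd Φ y z) (.old g)).toNat =
        (!(frame N).val (fd Φ y z) (.old N.out)).toNat := by
      rw [Finset.sum_eq_single N.out]
      · have : (frame N).w (.old N.out) .out = 1 := if_pos rfl
        rw [this, one_mul]
      · intro g _ hg
        have : (frame N).w (.old g) .out = 0 := if_neg hg
        rw [this, zero_mul]
      · intro h
        exact absurd (mem_univ _) h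
    have h6 : (frame N).w .out .out * (!(frame N).val (fd Φ y z) .out).toNat = 0 := zero_mul _
    have hb : ∀ b : Bool, 1 * (!b).toNat = 0 ↔ b = true := by decide
    have hb' : ∀ b : Bool, (!b).toNat = 0 ↔ b = true := by decide
    rw [h1, h2, h4, h5, h6]
    simp only [zero_add, add_zero]
    rw [Nat.add_eq_zero_iff, Nat.add_eq_zero_iff, Finset.sum_eq_zero_iff, Finset.sum_eq_zero_iff, hb']
    constructor
    · rintro ⟨e1, e2, e3⟩
      refine ⟨e3, fun v => (one_iff _ _).mpr ⟨?_, ?_⟩⟩
      · exact (frame_at1 N Φ y z v).mp ((hb _).mp (e1 v (mem_univ _)))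
      · exact (frame_no2 N Φ y z v).mp ((hb _).mp (e2 v (mem_univ _)))
    · rintro ⟨e3, e⟩
      refine ⟨fun v _ => (hb _).mpr ((frame_at1 N Φ y z v).mpr ((one_iff _ _).mp (e v)).1),
        fun v _ => (hb _).mpr ((frame_no2 N Φ y z v).mpr ((one_iff _ _).mp (e v)).2), e3⟩
  rw [main]
  constructor
  · rintro ⟨h, h'⟩
    obtain ⟨t, rfl⟩ := exists_oneHot z h'
    refine ⟨t, rfl, ?_⟩
    rw [frame_old N Φ y t _ _ rfl] at h
    exact h
  · rintro ⟨t, rfl, h⟩
    refine ⟨?_, oneHot_one t⟩
    rw [frame_old N Φ y t _ _ rfl]
    exact h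

/-- the automorphism of the symmetrised network -/
def framePerm (a : X → ZMod 2) : Equiv.Perm (FGate k X Gt) where
  toFun
    | .inC c => .inC (neg a c)
    | .gs p => .gs (lit a p)
    | .at1 v => .at1 v
    | .no2 v => .no2 v
    | .mux c β => .mux (neg a c) β
    | .old g => .old g
    | .out => .out
  invFun
    | .inC c => .inC ((neg a).symm c)
    | .gs p => .gs ((lit a).symm p)
    | .at1 v => .at1 v
    | .no2 v => .no2 v
    | .mux c β => .mux ((neg a).symm c) β
    | .old g => .old g
    | .out => .out
  left_inv g := by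
    cases g
    · exact congrArg FGate.inC (Equiv.symm_apply_apply _ _)
    · exact congrArg FGate.gs (Equiv.symm_apply_apply _ _)
    · rfl
    · rfl
    · exact congrArg (fun c => FGate.mux c _) (Equiv.symm_apply_apply _ _)
    · rfl
    · rfl
  right_inv g := by
    cases g
    · exact congrArg FGate.inC (Equiv.apply_symm_apply _ _)
    · exact congrArg FGate.gs (Equiv.apply_symm_apply _ _)
    · rfl
    · rfl
    · exact congrArg (fun c => FGate.mux c _) (Equiv.apply_symm_apply _ _)
    · rfl
    · rfl

lemma frame_aut (a : X → ZMod 2) :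
    (frame N).IsAut (Equiv.sumCongr (neg a) (Equiv.sumCongr 1 (lit a))) (framePerm a) := by
  classical
  refine ⟨?_, ?_, ?_, rfl⟩
  · intro g
    cases g with
    | old g =>
      show oInp (N.inp g) = (oInp (N.inp g)).map _
      cases N.inp g with
      | none => rfl
      | some i => rcases i with i | i <;> rfl
    | _ => rfl
  · intro h g
    cases h with
    | inC c =>
      cases g with
      | mux c' β =>
        show (if neg a c = neg a c' then 1 else 0) = if c = c' then 1 else 0
        by_cases hc : c = c'
        · rw [if_pos hc, if_pos (by rw [hc])]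
        · rw [if_neg hc, if_neg (fun h' => hc ((neg _).injective h'))]
      | _ => rfl
    | gs p =>
      cases g with
      | mux c β =>
        show occ (lit a p) (rel (neg a c) β) = occ p (rel c β)
        have : rel (neg a c) β = neg a (rel c β) := by
          funext l
          refine Prod.ext rfl ?_
          show ((c l).2 + a (c l).1) + β l = ((c l).2 + β l) + a (c l).1
          ring
        rw [this, occ_neg]
      | _ => rfl
    | at1 v => cases g <;> rfl
    | no2 v => cases g <;> rfl
    | mux c β =>
      cases g with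
      | old g =>
        show oMux (neg a c) β (N.inp g) = oMux c β (N.inp g)
        cases N.inp g with
        | none => rfl
        | some i => rcases i with i | i <;> rfl
      | _ => rfl
    | old h => cases g <;> rfl
    | out => cases g <;> rfl
  · intro g
    cases g <;> rfl

lemma frame_new : OnlyNew N (frame N) := by
  intro g
  cases g with
  | at1 v => exact Or.inr (Or.inl rfl)
  | no2 v => exact Or.inr (Or.inr (Or.inl rfl))
  | old g =>
    have h : (frame N).F (.old g) = oF (N.F g) (N.inp g) := rfl
    rw [h]
    cases N.inp g with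
    | none => exact Or.inr (Or.inr (Or.inr ⟨g, rfl⟩))
    | some i =>
      rcases i with i | j
      · exact Or.inr (Or.inl rfl)
      · exact Or.inr (Or.inr (Or.inr ⟨g, rfl⟩))
  | _ => exact Or.inl rfl

end H522R3.ND
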