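import Pool.Agent.H522R3.ND.Frame

set_option autoImplicit false
set_option linter.unusedSectionVars false

/-!
Symmetrisation with a guessed frame for the variables `W` and exhaustive search for the frame of the variables
`U`.
-/

namespace H522R3.ND

open Finset Pool.Agent.H30R2 Pool.Agent.H30R2.PS Pool.Agent.H30R2.NS

variable {k : ℕ} {W U Y Gt : Type} [Fintype W] [DecidableEq W] [Fintype U] [DecidableEq U] [Fintype Gt]

/-- splitting of the guess inputs -/
def splF : Y ⊕ ((W ⊕ U) × ZMod 2) → (Y ⊕ (W × ZMod 2)) ⊕ (U × ZMod 2)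
  | Sum.inl y => Sum.inl (Sum.inl y)
  | Sum.inr (Sum.inl w, b) => Sum.inl (Sum.inr (w, b))
  | Sum.inr (Sum.inr u, b) => Sum.inr (u, b)

/-- the symmetrised network -/
noncomputable def frameTrade (N : PS.Net (Clause k (W ⊕ U) ⊕ Y) Bool Gt) :
    PS.Net (Clause k (W ⊕ U) ⊕ (Y ⊕ (W × ZMod 2))) Bool (Option ((U → ZMod 2) × FGate k (W ⊕ U) Gt)) :=
  elimB (frame N) splF oneHot orGate

lemma frameTrade_sym (N : PS.Net (Clause k (W ⊕ U) ⊕ Y) Bool Gt) (a : W ⊕ U → ZMod 2) :
    SymAt (frameTrade N) a (Equiv.sumCongr 1 (lit fun w => a (Sum.inl w))) := by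
  refine ⟨_, elimB_aut (frame_aut N a) (Equiv.sumCongr 1 (lit fun w => a (Sum.inl w)))
    (lit fun u => a (Sum.inr u)) (fun y => ?_) (Equiv.addRight fun u => a (Sum.inr u))
    (fun p z => enc_shift _ p z)⟩
  rcases y with y | ⟨w | u, b⟩ <;> rfl

lemma frameTrade_exists (N : PS.Net (Clause k (W ⊕ U) ⊕ Y) Bool Gt) (Φ : Set (Clause k (W ⊕ U))) :
    (∃ y, (frameTrade N).eval (data true false Φ y) = true) ↔
      ∃ t y, N.eval (data true false (seen t Φ) y) = true := by
  classical
  have key : ∀ y, (frameTrade N).eval (data true false Φ y) = true ↔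
      ∃ p : U → ZMod 2, (frame N).eval
        (data true false Φ (fun y' => Sum.elim y (oneHot p) (splF y'))) = true := by
    intro y
    have h := elimB_eval (frame N) (splF : Y ⊕ ((W ⊕ U) × ZMod 2) → _) (oneHot (V := U)) orGate
      (fun c => if c ∈ Φ then true else false) y
    have h' : (frameTrade N).eval (data true false Φ y) = orGate (∑ p : U → ZMod 2,
        {(frame N).eval (data true false Φ (fun y' => Sum.elim y (oneHot p) (splF y')))}) := by
      refine Eq.trans ?_ h
      rfl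
    rw [h', orGate_sum]
  have split : ∀ (y : Y ⊕ (W × ZMod 2) → Bool) (p : U → ZMod 2),
      (fun y' => Sum.elim y (oneHot p) (splF y')) =
        Sum.elim (fun i => y (Sum.inl i)) (fun q : (W ⊕ U) × ZMod 2 =>
          Sum.elim y (oneHot p) (splF (Sum.inr q))) := by
    intro y p
    funext q
    rcases q with i | ⟨w | u, b⟩ <;> rfl
  constructor
  · rintro ⟨y, hy⟩
    obtain ⟨p, hp⟩ := (key y).mp hy
    rw [split] at hp
    obtain ⟨t, _, ht⟩ := (frame_eval N Φ _ _).mp hp
    exact ⟨t, _, ht⟩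
  · rintro ⟨t, y, hy⟩
    refine ⟨Sum.elim y (oneHot fun w => t (Sum.inl w)), (key _).mpr ⟨fun u => t (Sum.inr u), ?_⟩⟩
    rw [split]
    refine (frame_eval N Φ _ _).mpr ⟨t, ?_, hy⟩
    funext q
    rcases q with ⟨w | u, b⟩ <;> rfl

lemma frameTrade_card : Nat.card (Option ((U → ZMod 2) × FGate k (W ⊕ U) Gt)) =
    2 ^ Fintype.card U * (Fintype.card Gt + (2 ^ k + 1) * (2 * (Fintype.card W + Fintype.card U)) ^ k +
      4 * (Fintype.card W + Fintype.card U) + 1) + 1 := by
  rw [Nat.card_eq_fintype_card, Fintype.card_option, Fintype.card_prod, card_FGate, Fintype.card_fun,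
    ZMod.card, Fintype.card_sum]

lemma frameTrade_new (N : PS.Net (Clause k (W ⊕ U) ⊕ Y) Bool Gt) : OnlyNew N (frameTrade N) :=
  (frame_new N).trans (elimB_new _ _ _)

/-- satisfiability does not depend on the frame -/
lemma sat_seen {k : ℕ} {X : Type} (t : X → ZMod 2) (Φ : Set (Clause k X)) : Sat (seen t Φ) ↔ Sat Φ := by
  have h2 : ∀ u v w : ZMod 2, u = v → u + w = v + w := fun u v w h => by rw [h]
  constructor
  · rintro ⟨x, hx⟩
    refine ⟨fun v => x v + t v, fun c hc => ?_⟩
    obtain ⟨l, hl⟩ := hx ((neg t).symm c) (by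
      show neg t ((neg t).symm c) ∈ Φ
      rw [Equiv.apply_symm_apply]
      exact hc)
    refine ⟨l, ?_⟩
    have h1 : x (c l).1 = (c l).2 + t (c l).1 := hl
    show x (c l).1 + t (c l).1 = (c l).2
    rw [h1, add_assoc, CharTwo.add_self_eq_zero, add_zero]
  · rintro ⟨x, hx⟩
    refine ⟨fun v => x v + t v, fun c hc => ?_⟩
    obtain ⟨l, hl⟩ := hx (neg t c) hc
    refine ⟨l, ?_⟩
    have h1 : x (c l).1 = (c l).2 + t (c l).1 := hl
    show x (c l).1 + t (c l).1 = (c l).2
    rw [h1, add_assoc, CharTwo.add_self_eq_zero, add_zero]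

lemma seen_small {k M : ℕ} {X : Type} (t : X → ZMod 2) (Φ : Set (Clause k X))
    (h : Φ.Finite ∧ Φ.ncard ≤ M) : (seen t Φ).Finite ∧ (seen t Φ).ncard ≤ M := by
  have h1 : seen t Φ = (neg t) ⁻¹' Φ := rfl
  have h2 : (neg t : Clause k X → Clause k X) ⁻¹' Φ = (neg t).symm '' Φ :=
    ((neg t).symm.image_eq_preimage_symm Φ).symm
  rw [h1, h2]
  refine ⟨h.1.image _, ?_⟩
  rw [Set.ncard_image_of_injective _ (Equiv.injective _)]
  exact h.2

end H522R3.ND

namespace H522R3.ND

open Finset Pool.Agent.H30R2 Pool.Agent.H30R2.PS Pool.Agent.H30R2.NS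

variable {k : ℕ} {W U Y Gt : Type} [Fintype W] [DecidableEq W] [Fintype U] [DecidableEq U] [Fintype Gt]

/-- the value of the symmetrised network for a valid frame -/
lemma frameTrade_valid (N : PS.Net (Clause k (W ⊕ U) ⊕ Y) Bool Gt) (Φ : Set (Clause k (W ⊕ U)))
    (y : Y → Bool) (t : W → ZMod 2) :
    (frameTrade N).eval (data true false Φ (Sum.elim y (oneHot t))) = true ↔
      ∃ p : U → ZMod 2, N.eval (data true false (seen (Sum.elim t p) Φ) y) = true := by
  classical
  have h := elimB_eval (frame N) (splF : Y ⊕ ((W ⊕ U) × ZMod 2) → _) (oneHot (V := U)) orGate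
    (fun c => if c ∈ Φ then true else false) (Sum.elim y (oneHot t))
  have h' : (frameTrade N).eval (data true false Φ (Sum.elim y (oneHot t))) =
      orGate (∑ p : U → ZMod 2, {(frame N).eval
        (data true false Φ (fun y' => Sum.elim (Sum.elim y (oneHot t)) (oneHot p) (splF y')))}) := by
    refine Eq.trans ?_ h
    rfl
  have split : ∀ p : U → ZMod 2,
      (fun y' => Sum.elim (Sum.elim y (oneHot t)) (oneHot p) (splF y')) =
        Sum.elim y (oneHot (Sum.elim t p) : (W ⊕ U) × ZMod 2 → Bool) := by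
    intro p
    funext q
    rcases q with i | ⟨w | u, b⟩ <;> rfl
  rw [h', orGate_sum]
  refine exists_congr fun p => ?_
  rw [split]
  have h1 := frame_eval N Φ y (oneHot (Sum.elim t p))
  refine Iff.trans h1 ?_
  constructor
  · rintro ⟨t', ht', h2⟩
    have : t' = Sum.elim t p := by
      funext v
      have h3 := congrFun ht' (v, t' v)
      have h4 : decide ((Sum.elim t p : W ⊕ U → ZMod 2) v = t' v) = decide (t' v = t' v) := h3
      rw [decide_eq_true rfl, decide_eq_true_iff] at h4
      exact h4.symm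
    rw [← this]
    exact h2
  · intro h2
    exact ⟨_, rfl, h2⟩

end H522R3.ND
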