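import Pool.Agent.H30R2.PS.Net

set_option autoImplicit false
set_option linter.unusedSectionVars false

/-!
Networks with guess inputs, and the network which computes all their values simultaneously.
-/

namespace H522R3.ND

open Finset Pool.Agent.H30R2 Pool.Agent.H30R2.PS

variable {I Y K Gt : Type} [Fintype Gt]

/-- the inputs of a network with guess inputs `Y` -/
def inpt (x : I → K) (y : Y → K) : I ⊕ Y → K := Sum.elim x y

/-- input names of the frozen network -/
def fInp : Option (I ⊕ Y) → Option I
  | some (Sum.inl i) => some i
  | some (Sum.inr _) => none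
  | none => none

/-- wires of the frozen network -/
def fW : Option (I ⊕ Y) → ℕ → ℕ
  | some _, _ => 0
  | none, w => w

/-- gates of the frozen network -/
def fF : Option (I ⊕ Y) → (Multiset K → K) → Multiset ((Y → K) → K) → (Y → K) → K
  | some (Sum.inl _), F, s, y => F (s.map fun f => f y)
  | some (Sum.inr j), _, _, y => y j
  | none, F, s, y => F (s.map fun f => f y)

/-- The network in which the guess inputs become constants: the values are functions of the guesses. -/
def freeze (N : Net (I ⊕ Y) K Gt) : Net I ((Y → K) → K) Gt where
  inp g := fInp (N.inp g)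
  w h g := fW (N.inp g) (N.w h g)
  F g := fF (N.inp g) (N.F g)
  out := N.out
  rank := N.rank
  acyc := by
    intro h g hw
    cases hi : N.inp g with
    | some i =>
      rw [hi] at hw
      exact absurd hw (lt_irrefl _)
    | none =>
      rw [hi] at hw
      exact N.acyc _ _ hw

lemma freeze_val (N : Net (I ⊕ Y) K Gt) (x : I → K) (y : Y → K) :
    ∀ (k : ℕ) (g : Gt), N.rank g = k →
      (freeze N).val (fun i _ => x i) g y = N.val (inpt x y) g := by
  intro k
  induction k using Nat.strong_induction_on with
  | _ k ih =>
    intro g hg
    cases hi : N.inp g with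
    | some i =>
      rcases i with i | j
      · have h1 : (freeze N).inp g = some i := by
          show fInp (N.inp g) = _
          rw [hi]
          rfl
        rw [Net.val_some _ _ h1, Net.val_some _ _ hi]
        rfl
      · have h1 : (freeze N).inp g = none := by
          show fInp (N.inp g) = _
          rw [hi]
          rfl
        rw [Net.val_none _ _ h1, Net.val_some _ _ hi]
        show fF (N.inp g) _ _ y = _
        rw [hi]
        rfl
    | none =>
      have h1 : (freeze N).inp g = none := by
        show fInp (N.inp g) = _
        rw [hi]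
        rfl
      rw [Net.val_none _ _ h1, Net.val_none _ _ hi]
      have hF : ∀ s : Multiset ((Y → K) → K), (freeze N).F g s y = N.F g (s.map fun f => f y) := by
        intro s
        show fF (N.inp g) _ _ y = _
        rw [hi]
        rfl
      have hw : ∀ h, (freeze N).w h g = N.w h g := by
        intro h
        show fW (N.inp g) _ = _
        rw [hi]
        rfl
      rw [hF]
      congr 1
      rw [← Multiset.coe_mapAddMonoidHom, map_sum]
      refine Finset.sum_congr rfl fun h _ => ?_
      rw [Multiset.coe_mapAddMonoidHom, Multiset.map_nsmul, Multiset.map_singleton, hw]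
      by_cases hwt : 0 < N.w h g
      · rw [ih (N.rank h) (by rw [← hg]; exact N.acyc _ _ hwt) h rfl]
      · have : N.w h g = 0 := by omega
        rw [this, zero_smul, zero_smul]

lemma freeze_eval (N : Net (I ⊕ Y) K Gt) (x : I → K) (y : Y → K) :
    (freeze N).eval (fun i _ => x i) y = N.eval (inpt x y) := freeze_val N x y _ _ rfl

lemma freeze_aut {N : Net (I ⊕ Y) K Gt} {p : Equiv.Perm I} {φ : Equiv.Perm Gt}
    (h : N.IsAut (Equiv.sumCongr p 1) φ) : (freeze N).IsAut p φ := by
  have h0 : ∀ g, N.inp (φ g) = (N.inp g).map (Equiv.sumCongr p (1 : Equiv.Perm Y)) := h.inp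
  refine ⟨?_, ?_, ?_, h.out⟩
  · intro g
    show fInp (N.inp (φ g)) = (fInp (N.inp g)).map p
    rw [h0]
    cases hi : N.inp g with
    | some i =>
      rcases i with i | j <;> rfl
    | none => rfl
  · intro k g
    show fW (N.inp (φ g)) (N.w (φ k) (φ g)) = fW (N.inp g) (N.w k g)
    rw [h0]
    cases hi : N.inp g with
    | some i => rfl
    | none => exact h.w k g
  · intro g
    show fF (N.inp (φ g)) (N.F (φ g)) = fF (N.inp g) (N.F g)
    rw [h0, h.F]
    cases hi : N.inp g with
    | some i =>
      rcases i with i | j <;> rfl
    | none => rfl

end H522R3.ND
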