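import Mathlib

set_option autoImplicit false
set_option linter.unusedSectionVars false

/-!
An elementary abelian 2-group acting on `g` points has a kernel of index at most `2 ^ (g / 2)`.
-/

namespace H522R3.ND

open Finset

/-- the elements of `A` which fix `S` pointwise -/
def fixer {G Y : Type} [CommGroup G] (σ : G →* Equiv.Perm Y) (A : Subgroup G) (S : Finset Y) :
    Subgroup G where
  carrier := {a | a ∈ A ∧ ∀ y ∈ S, σ a y = y}
  mul_mem' := by
    rintro a b ⟨ha, ha'⟩ ⟨hb, hb'⟩
    refine ⟨A.mul_mem ha hb, fun y hy => ?_⟩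
    rw [map_mul, Equiv.Perm.mul_apply, hb' y hy, ha' y hy]
  one_mem' := ⟨A.one_mem, fun y _ => by rw [map_one]; rfl⟩
  inv_mem' := by
    rintro a ⟨ha, ha'⟩
    refine ⟨A.inv_mem ha, fun y hy => ?_⟩
    rw [map_inv, Equiv.Perm.inv_eq_iff_eq]
    exact (ha' y hy).symm

lemma two_mul_le_two_pow (k : ℕ) : 2 * k ≤ 2 ^ k := by
  induction k with
  | zero => norm_num
  | succ k ih =>
    rcases Nat.eq_zero_or_pos k with rfl | hk
    · norm_num
    · have h1 : 2 ≤ 2 ^ k := by
        calc 2 = 2 ^ 1 := by norm_num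
          _ ≤ 2 ^ k := Nat.pow_le_pow_right (by norm_num) hk
      rw [pow_succ]
      omega

lemma card_sq_le {G Y : Type} [CommGroup G] [Finite G] [DecidableEq Y] (r : ℕ) (hG : Nat.card G = 2 ^ r)
    (σ : G →* Equiv.Perm Y) :
    ∀ (n : ℕ) (S : Finset Y) (A : Subgroup G), S.card = n → (∀ a ∈ A, ∀ y ∈ S, σ a y ∈ S) →
      Nat.card A ^ 2 ≤ Nat.card (fixer σ A S) ^ 2 * 2 ^ S.card := by
  classical
  intro n
  induction n using Nat.strong_induction_on with
  | _ n ih =>
    intro S A hS hinv
    rcases S.eq_empty_or_nonempty with rfl | ⟨y, hy⟩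
    · have h1 : fixer σ A ∅ = A := by
        ext a
        constructor
        · exact fun h => h.1
        · exact fun h => ⟨h, fun y hy => absurd hy (Finset.notMem_empty y)⟩
      rw [h1, Finset.card_empty, pow_zero, mul_one]
    · let act : MulAction A Y := MulAction.compHom Y (σ.comp A.subtype)
      have hsmul : ∀ (a : A) (z : Y), a • z = σ a.1 z := fun a z => rfl
      have : Fintype A := Fintype.ofFinite A
      have hOfin : (MulAction.orbit A y).Finite := Set.finite_range _
      set O : Finset Y := hOfin.toFinset with hO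
      have hOS : O ⊆ S := by
        intro z hz
        rw [hO, Set.Finite.mem_toFinset] at hz
        obtain ⟨a, rfl⟩ := hz
        exact hinv a.1 a.2 y hy
      have hyO : y ∈ O := by
        rw [hO, Set.Finite.mem_toFinset]
        exact MulAction.mem_orbit_self y
      -- the stabilizer
      set A' : Subgroup G := fixer σ A {y} with hA'
      have hstab : Nat.card (MulAction.stabilizer A y) = Nat.card A' := by
        refine Nat.card_congr ⟨fun a => ⟨a.1.1, a.1.2, ?_⟩, fun a => ⟨⟨a.1, a.2.1⟩, ?_⟩, ?_, ?_⟩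
        · intro z hz
          rw [Finset.mem_singleton] at hz
          rw [hz]
          exact a.2
        · exact a.2.2 y (Finset.mem_singleton_self y)
        · intro a; rfl
        · intro a; rfl
      have hcard : O.card * Nat.card A' = Nat.card A := by
        rw [← hstab]
        have h1 : Nat.card (MulAction.orbit A y) = O.card := by
          rw [hO, Nat.card_coe_set_eq, Set.ncard_eq_toFinset_card _ hOfin]
        rw [← h1, ← Nat.card_prod]
        exact Nat.card_congr (MulAction.orbitProdStabilizerEquivGroup A y)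
      have hpow : ∃ k, O.card = 2 ^ k := by
        have h1 : O.card ∣ 2 ^ r := by
          rw [← hG]
          exact (Dvd.intro _ hcard).trans (Subgroup.card_subgroup_dvd_card A)
        obtain ⟨k, _, hk⟩ := (Nat.dvd_prime_pow Nat.prime_two).mp h1
        exact ⟨k, hk⟩
      obtain ⟨k, hk⟩ := hpow
      have hsq : O.card ^ 2 ≤ 2 ^ O.card := by
        rw [hk, ← pow_mul]
        refine Nat.pow_le_pow_right (by norm_num) ?_
        rw [mul_comm]
        exact two_mul_le_two_pow k
      have hfixO : ∀ a ∈ A', ∀ z ∈ O, σ a z = z := by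
        intro a ha z hz
        rw [hO, Set.Finite.mem_toFinset] at hz
        obtain ⟨b, rfl⟩ := hz
        show σ a (σ b.1 y) = σ b.1 y
        rw [← Equiv.Perm.mul_apply, ← map_mul, mul_comm, map_mul, Equiv.Perm.mul_apply,
          ha.2 y (Finset.mem_singleton_self y)]
      have hS' : (S \ O).card + O.card = S.card := Finset.card_sdiff_add_card_eq_card hOS
      have hOpos : 0 < O.card := Finset.card_pos.mpr ⟨y, hyO⟩
      have h2 := ih (S \ O).card (by omega) (S \ O) A' rfl (by
        intro a ha z hz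
        rw [Finset.mem_sdiff] at hz ⊢
        refine ⟨hinv a ha.1 z hz.1, fun h => hz.2 ?_⟩
        have h3 := hfixO a⁻¹ (A'.inv_mem ha) _ h
        rw [map_inv] at h3
        have h4 : (σ a)⁻¹ (σ a z) = z := (σ a).symm_apply_apply z
        rw [h4] at h3
        rw [h3]
        exact h)
      have hfix : fixer σ A' (S \ O) = fixer σ A S := by
        ext a
        constructor
        · rintro ⟨ha, h⟩
          refine ⟨ha.1, fun z hz => ?_⟩
          by_cases hzO : z ∈ O
          · exact hfixO a ha z hzO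
          · exact h z (Finset.mem_sdiff.mpr ⟨hz, hzO⟩)
        · rintro ⟨ha, h⟩
          refine ⟨⟨ha, fun z hz => ?_⟩, fun z hz => h z (Finset.mem_sdiff.mp hz).1⟩
          rw [Finset.mem_singleton] at hz
          rw [hz]
          exact h y hy
      rw [hfix] at h2
      calc Nat.card A ^ 2 = O.card ^ 2 * Nat.card A' ^ 2 := by rw [← hcard, mul_pow]
        _ ≤ 2 ^ O.card * (Nat.card (fixer σ A S) ^ 2 * 2 ^ (S \ O).card) :=
            Nat.mul_le_mul hsq h2
        _ = Nat.card (fixer σ A S) ^ 2 * 2 ^ S.card := by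
            rw [← hS', pow_add]
            ring

/-- A group of order `2 ^ r` acting on a set and moving at most `g` points has a kernel of order at least
`2 ^ (r - g / 2)`. -/
theorem kernel_card {V Y : Type} (D : AddSubgroup (V → ZMod 2)) (r : ℕ) (hD : Nat.card D = 2 ^ r)
    (σ : D → Equiv.Perm Y) (hσ : ∀ a b, σ (a + b) = σ a * σ b) (g : ℕ)
    (hfin : {y | ∃ a, σ a y ≠ y}.Finite) (hg : {y | ∃ a, σ a y ≠ y}.ncard ≤ g) :
    ∃ (D0 : AddSubgroup (V → ZMod 2)) (r0 : ℕ), (∀ a ∈ D0, ∃ h : a ∈ D, σ ⟨a, h⟩ = 1) ∧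
      Nat.card D0 = 2 ^ r0 ∧ r ≤ r0 + g / 2 ∧ r0 ≤ r := by
  classical
  have hDfin : Finite D := Nat.finite_of_card_ne_zero (by rw [hD]; positivity)
  have : Finite (Multiplicative D) := hDfin
  let τ : Multiplicative D →* Equiv.Perm Y := MonoidHom.mk' (fun a => σ a.toAdd) (fun a b => hσ _ _)
  have hτ : ∀ a : D, τ (Multiplicative.ofAdd a) = σ a := fun a => rfl
  have hM : Nat.card (Multiplicative D) = 2 ^ r := hD
  set S : Finset Y := hfin.toFinset with hS
  have hmem : ∀ y, y ∈ S ↔ ∃ a, σ a y ≠ y := fun y => by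
    rw [hS, Set.Finite.mem_toFinset]
    exact Iff.rfl
  have hSg : S.card ≤ g := by
    rw [hS, ← Set.ncard_eq_toFinset_card _ hfin]
    exact hg
  have h1 := card_sq_le r hM τ S.card S ⊤ rfl (by
    intro a _ y hy
    rw [hmem] at hy ⊢
    obtain ⟨b, hb⟩ := hy
    refine ⟨b, fun h => hb ?_⟩
    have h2 : (σ b * τ a) y = τ a y := h
    have h3 : σ b * τ a = τ a * σ b := by
      show τ (Multiplicative.ofAdd b) * τ a = τ a * τ (Multiplicative.ofAdd b)
      rw [← map_mul, ← map_mul, mul_comm]
    rw [h3] at h2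
    exact (τ a).injective h2)
  -- the kernel as a subgroup of `V → ZMod 2`
  set F : Subgroup (Multiplicative D) := fixer τ ⊤ S with hF
  have hFmem : ∀ a : D, Multiplicative.ofAdd a ∈ F ↔ σ a = 1 := by
    intro a
    constructor
    · rintro ⟨_, h⟩
      refine Equiv.ext fun y => ?_
      by_cases hy : y ∈ S
      · exact h y hy
      · rw [hmem] at hy
        push Not at hy
        exact hy a
    · intro h
      refine ⟨Subgroup.mem_top _, fun y _ => ?_⟩
      rw [hτ, h]
      rfl
  let D0 : AddSubgroup (V → ZMod 2) :=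
    { carrier := {a | ∃ h : a ∈ D, σ ⟨a, h⟩ = 1}
      add_mem' := by
        rintro a b ⟨ha, ha'⟩ ⟨hb, hb'⟩
        refine ⟨D.add_mem ha hb, ?_⟩
        have := hσ ⟨a, ha⟩ ⟨b, hb⟩
        rw [ha', hb', one_mul] at this
        exact this
      zero_mem' := by
        refine ⟨D.zero_mem, ?_⟩
        exact (hFmem 0).mp F.one_mem
      neg_mem' := by
        rintro a ⟨ha, ha'⟩
        refine ⟨D.neg_mem ha, ?_⟩
        exact (hFmem (-⟨a, ha⟩)).mp (F.inv_mem ((hFmem ⟨a, ha⟩).mpr ha')) }
  have hD0 : Nat.card D0 = Nat.card F := by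
    refine Nat.card_congr ⟨fun a => ⟨Multiplicative.ofAdd ⟨a.1, a.2.choose⟩, (hFmem _).mpr a.2.choose_spec⟩,
      fun a => ⟨(Multiplicative.toAdd a.1).1, (Multiplicative.toAdd a.1).2, (hFmem _).mp a.2⟩, ?_, ?_⟩
    · intro a; rfl
    · intro a; rfl
  have hdvd : Nat.card F ∣ 2 ^ r := by
    rw [← hM]
    exact Subgroup.card_subgroup_dvd_card F
  obtain ⟨r0, hr0r, hr0⟩ := (Nat.dvd_prime_pow Nat.prime_two).mp hdvd
  refine ⟨D0, r0, fun a ha => ha, by rw [hD0, hr0], ?_, hr0r⟩
  rw [hr0] at h1
  have h2 : Nat.card (⊤ : Subgroup (Multiplicative D)) = 2 ^ r := by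
    rw [Subgroup.card_top, hM]
  rw [h2, ← pow_mul, ← pow_mul, ← pow_add] at h1
  have h3 : r * 2 ≤ r0 * 2 + S.card := (Nat.pow_le_pow_iff_right (by norm_num)).mp h1
  omega

end H522R3.ND
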