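import Pool.Agent.H522R3.ND.Rand
import Pool.Agent.H522R3.ND.Freeze
import Pool.Agent.H522R3.ND.Kernel
import Pool.Agent.H522R3.ND.Defs
import Pool.Agent.H30R2.NS.Info
import Pool.Agent.H30R2.NS.Seth

set_option autoImplicit false
set_option linter.unusedSectionVars false

/-!
Lower bounds for nondeterministic networks.
-/

namespace H522R3.ND

open Finset Pool.Agent.H30R2 Pool.Agent.H30R2.PS Pool.Agent.H30R2.NS

/-- the input family of a network with values in `K` -/
noncomputable def fam {k r : ℕ} {X K : Type} (one zero : K) (ι : Fin r → X) (E : NS.Ext ι)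
    (T : Fin (r + 1) × Fin k → Fin r) :
    PS.Setup (Clause k X) K (Fin (r + 1)) (Fin r → ZMod 2) := by
  classical
  exact
  { B := NS.A T
    perm := fun h => neg (E.ext h)
    perm_zero := by rw [E.zero, neg_zero]
    perm_add := fun h h' => by rw [E.add, neg_add]
    x := fun t c => if c ∈ Phi ι T t then one else zero
    equi := by
      intro t h c
      by_cases hc : c ∈ Phi ι T t
      · rw [if_pos hc, if_pos ((neg_phi E T t h c).mpr hc)]
      · rw [if_neg hc, if_neg (fun h' => hc ((neg_phi E T t h c).mp h'))]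
    loc := fun c => {j | ∀ l, (c l).1 = ι (T (j, l))}
    loc_x := by
      intro c t e he
      have key : c ∈ Phi ι T (t + e) ↔ c ∈ Phi ι T t := by
        constructor
        · rintro ⟨j, hj, hs⟩
          refine ⟨j, hj, ?_⟩
          rw [Pi.add_apply, he j hj, add_zero] at hs
          exact hs
        · rintro ⟨j, hj, hs⟩
          refine ⟨j, hj, ?_⟩
          rw [Pi.add_apply, he j hj, add_zero]
          exact hs
      by_cases hc : c ∈ Phi ι T t
      · rw [if_pos hc, if_pos (key.mpr hc)]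
      · rw [if_neg hc, if_neg (fun h' => hc (key.mp h'))]
    loc_perm := by
      intro c h hfix j hj
      rw [NS.A_apply]
      refine Finset.sum_eq_zero fun l _ => ?_
      have h3 := congrArg Prod.snd (congrFun hfix l)
      rw [neg_apply] at h3
      have h4 : (c l).2 + E.ext h (c l).1 = (c l).2 + 0 := by rw [add_zero]; exact h3
      have h5 := add_left_cancel h4
      rw [hj l, E.apply] at h5
      exact h5 }

/-- systems of equations with a solution -/
lemma oddSat_phi {k r m : ℕ} {X : Type} (ι : Fin r → X) (T : Fin m × Fin k → Fin r) :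
    OddSat (Phi ι T 0) := by
  refine ⟨0, ?_⟩
  rintro c ⟨j, hj, hs⟩
  unfold OddTrue
  have h1 : ((((univ : Finset (Fin k)).filter fun l => (0 : X → ZMod 2) (c l).1 = (c l).2).card : ℕ) : ZMod 2)
      = ∑ l, ((c l).2 + 1) := by
    rw [Finset.card_filter, Nat.cast_sum]
    refine Finset.sum_congr rfl fun l _ => ?_
    show ((if (0 : ZMod 2) = (c l).2 then 1 else 0 : ℕ) : ZMod 2) = (c l).2 + 1
    generalize (c l).2 = z
    revert z
    decide
  have h2 : ∑ l, ((c l).2 + 1) = 1 := by
    have : ∀ z : ZMod 2, z ≠ 0 → z = 1 := by decide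
    exact this _ hs
  rw [h2] at h1
  rw [← Nat.not_even_iff_odd]
  intro heven
  have h3 := (ZMod.natCast_eq_zero_iff_even).mpr heven
  rw [h1] at h3
  exact one_ne_zero h3

lemma mapc_mem {k : ℕ} {V X : Type} (ι : V ↪ X) (c : Clause k X) (h : ∀ l, (c l).1 ∈ Set.range ι) :
    ∃ c' : Clause k V, mapc ι c' = c := by
  choose v hv using h
  exact ⟨fun l => (v l, (c l).2), funext fun l => Prod.ext (hv l) rfl⟩

/-- The general bound: a network with few gates does not distinguish some satisfiable formula from some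
unsatisfiable formula, whatever the guesses. -/
theorem core {k r0 : ℕ} {X V Y K Gt : Type} [Fintype Gt] (hk : 1 ≤ k) (hr0 : 0 < r0) (ι : V ↪ X)
    (D0 : AddSubgroup (V → ZMod 2)) (hD0 : Nat.card D0 = 2 ^ r0) (one zero : K)
    (N : PS.Net (Clause k X ⊕ Y) K Gt) (hN : ∀ a ∈ D0, SymAt N (ext0 ι a) 1)
    (τ : ℕ) (hτ : 1 ≤ τ) (q1 q2 : ℝ)
    (hq1 : ∑ J ∈ (univ : Finset (Finset (Fin (r0 + 1)))).filter
      (fun J => τ < J.card ∧ J.card ≤ 2 * τ), NS.pp (Fin r0) (k * J.card) ≤ q1)
    (hq2 : ∑ J ∈ (univ : Finset (Finset (Fin (r0 + 1)))).filter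
      (fun J => 1 ≤ J.card ∧ J.card ≤ τ), NS.pp (Fin r0) (k * J.card) ≤ q2)
    (hlt : (Fintype.card Gt : ℝ) * q1 + q2 < 1) :
    ∃ Φ0 Φ1 : Set (Clause k X), (Φ0.Finite ∧ Φ0.ncard ≤ 2 ^ (k - 1) * (r0 + 1)) ∧
      (Φ1.Finite ∧ Φ1.ncard ≤ 2 ^ (k - 1) * (r0 + 1)) ∧
      (∀ c ∈ Φ0 ∪ Φ1, ∀ l, (c l).1 ∈ Set.range ι) ∧ OddSat Φ0 ∧ ¬ Sat Φ1 ∧
      ∀ y : Y → K, N.eval (data one zero Φ0 y) = N.eval (data one zero Φ1 y) := by
  classical
  obtain ⟨κ, hκ, E, hE⟩ := NS.exists_ext D0 r0 hD0
  -- the information set inside `X`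
  let E' : NS.Ext (fun i => ι (κ i)) :=
    { ext := fun a => ext0 ι (E.ext a)
      add := fun a b => by rw [E.add, ext0_add]
      apply := fun a v => by rw [ext0_apply, E.apply] }
  obtain ⟨T, e, he, hev⟩ := exists_unsolvable (K := (Y → K) → K) τ hτ hr0
    (fun h => neg (E'.ext h)) (fun T => fam (fun _ => one) (fun _ => zero) (fun i => ι (κ i)) E' T)
    (fun _ => rfl) (fun _ => rfl) (freeze N) (fun a => by
      obtain ⟨φ, hφ⟩ := hN _ (hE a)
      exact ⟨φ, freeze_aut hφ⟩) q1 q2 hq1 hq2 hlt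
  refine ⟨Phi (fun i => ι (κ i)) T 0, Phi (fun i => ι (κ i)) T e, phi_card hk T 0, phi_card hk T e,
    ?_, oddSat_phi _ T, ?_, ?_⟩
  · rintro c (⟨j, hj, _⟩ | ⟨j, hj, _⟩) l
    · exact ⟨_, (hj l).symm⟩
    · exact ⟨_, (hj l).symm⟩
  · rintro ⟨x, hx⟩
    have h1 := (phi_sat_iff (fun i => ι (κ i)) T e x).mp hx
    exact he (fun v => x (ι (κ v))) (funext fun j => h1 j)
  · intro y
    have h1 : ∀ t, (fam (fun _ => one) (fun _ => zero) (fun i => ι (κ i)) E' T).x t =
        fun i (_ : Y → K) => (if i ∈ Phi (fun i => ι (κ i)) T t then one else zero) := by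
      intro t
      funext i
      show (if i ∈ Phi (fun i => ι (κ i)) T t then (fun _ : Y → K => one) else fun _ => zero) = _
      by_cases hi : i ∈ Phi (fun i => ι (κ i)) T t
      · rw [if_pos hi]
        funext y
        rw [if_pos hi]
      · rw [if_neg hi]
        funext y
        rw [if_neg hi]
    have h2 : (freeze N).eval (fun i (_ : Y → K) => (if i ∈ Phi (fun i => ι (κ i)) T e then one else zero)) y =
        (freeze N).eval (fun i (_ : Y → K) => (if i ∈ Phi (fun i => ι (κ i)) T 0 then one else zero)) y := by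
      rw [← h1, ← h1]
      exact congrFun hev y
    rw [freeze_eval, freeze_eval] at h2
    exact h2.symm

end H522R3.ND
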