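import Pool.Agent.H522R3.HN.Rand

set_option autoImplicit false
set_option linter.unusedSectionVars false

/-!
The union bound over random systems of equations over `ZMod 2` with `k` variables per equation, for networks
with values in an arbitrary set.
-/

namespace H522R3.ND

open Finset Pool.Agent.H30R2 H522R3.HN

variable {I K Gt : Type} [Fintype Gt]

open Classical in
/-- a system without solution which the network does not distinguish from a solvable one -/
theorem exists_unsolvable {r k : ℕ} (τ : ℕ) (hτ : 1 ≤ τ) (hr0 : 0 < r)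
    (perm : (Fin r → ZMod 2) → Equiv.Perm I)
    (Z : (Fin (r + 1) × Fin k → Fin r) → PS.Setup I K (Fin (r + 1)) (Fin r → ZMod 2))
    (hB : ∀ T, (Z T).B = NS.A T) (hperm : ∀ T, (Z T).perm = perm)
    (N : PS.Net I K Gt) (hN : ∀ a, ∃ φ, N.IsAut (perm a) φ)
    (q1 q2 : ℝ)
    (hq1 : ∑ J ∈ (univ : Finset (Finset (Fin (r + 1)))).filter
      (fun J => τ < J.card ∧ J.card ≤ 2 * τ), NS.pp (Fin r) (k * J.card) ≤ q1)
    (hq2 : ∑ J ∈ (univ : Finset (Finset (Fin (r + 1)))).filter
      (fun J => 1 ≤ J.card ∧ J.card ≤ τ), NS.pp (Fin r) (k * J.card) ≤ q2)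
    (hlt : (Fintype.card Gt : ℝ) * q1 + q2 < 1) :
    ∃ T : Fin (r + 1) × Fin k → Fin r, ∃ e, (∀ a, NS.A T a ≠ e) ∧
      N.eval ((Z T).x e) = N.eval ((Z T).x 0) := by
  let T0 : Fin (r + 1) × Fin k → Fin r := fun _ => ⟨0, hr0⟩
  let st : Gt → Submodule (ZMod 2) (Fin r → ZMod 2) := PS.stab (Z T0) N
  have hst : ∀ T g, PS.stab (Z T) N g = st g := fun T g =>
    stab_eq _ _ ((hperm T).trans (hperm T0).symm) N g
  set J1 : Finset (Finset (Fin (r + 1))) := univ.filter (fun J => τ < J.card ∧ J.card ≤ 2 * τ) with hJ1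
  set J2 : Finset (Finset (Fin (r + 1))) := univ.filter (fun J => 1 ≤ J.card ∧ J.card ≤ τ) with hJ2
  set S : Finset (Submodule (ZMod 2) (Fin r → ZMod 2)) := univ.image st with hS
  set M : ℝ := ((Fintype.card (Fin (r + 1) × Fin k → Fin r) : ℕ) : ℝ) with hM
  have : Nonempty (Fin r) := ⟨⟨0, hr0⟩⟩
  have hMpos : 0 < M := by
    rw [hM]
    exact_mod_cast Fintype.card_pos
  have hM0 : 0 ≤ M := hMpos.le
  set B : Submodule (ZMod 2) (Fin r → ZMod 2) → Finset (Fin (r + 1)) →
      Finset (Fin (r + 1) × Fin k → Fin r) :=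
    fun H J => univ.filter fun T => ∀ a ∈ H, ∑ j ∈ J, NS.A T a j = 0 with hBdef
  have hcard : ∀ H J, ((B H J).card : ℝ) ≤
      2 ^ Fintype.card (Fin r) / Nat.card H * NS.pp (Fin r) (k * J.card) * M := by
    intro H J
    have hpos : (0 : ℝ) < Nat.card H := by
      have : 0 < Nat.card H := Nat.card_pos
      exact_mod_cast this
    have h := NS.count_inv (k := k) H J
    have h' : ((B H J).card : ℝ) ≤
        (2 ^ Fintype.card (Fin r) * NS.pp (Fin r) (k * J.card) * M) / Nat.card H := by
      rw [le_div_iff₀ hpos, mul_comm]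
      refine le_trans (le_of_eq ?_) h
      congr 2
    calc ((B H J).card : ℝ) ≤ (2 ^ Fintype.card (Fin r) * NS.pp (Fin r) (k * J.card) * M) / Nat.card H := h'
      _ = 2 ^ Fintype.card (Fin r) / Nat.card H * NS.pp (Fin r) (k * J.card) * M := by ring
  have hS1 : ∑ H ∈ S, (2 ^ Fintype.card (Fin r) / Nat.card H : ℝ) ≤ Fintype.card Gt := by
    have h1 : (Fintype.card Gt : ℝ) = ∑ H ∈ S,
        ((univ.filter fun g => st g = H).card : ℝ) := by
      rw [← Nat.cast_sum, ← Finset.card_univ]
      congr 1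
      exact Finset.card_eq_sum_card_image st univ
    rw [h1]
    refine Finset.sum_le_sum fun H hH => ?_
    rw [hS, Finset.mem_image] at hH
    obtain ⟨g, _, rfl⟩ := hH
    have hpos : (0 : ℝ) < Nat.card (st g) := by
      have : 0 < Nat.card (st g) := Nat.card_pos
      exact_mod_cast this
    rw [div_le_iff₀ hpos, mul_comm]
    have h2 := PS.orbit_le (Z T0) N (by rw [hperm]; exact hN) g
    rw [Fintype.card_fun, ZMod.card] at h2
    have h3 : 2 ^ Fintype.card (Fin r) ≤ Nat.card (st g) *
      (univ.filter fun g' => st g' = st g).card := by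
      refine le_trans h2 (le_of_eq ?_)
      congr 1
    exact_mod_cast h3
  have hbad : (((univ : Finset (Fin (r + 1) × Fin k → Fin r)).filter fun T =>
      T ∈ (S.biUnion fun H => J1.biUnion fun J => B H J) ∪ J2.biUnion fun J => B ⊤ J).card : ℝ) ≤
      (Fintype.card Gt * q1 + q2) * M := by
    rw [Finset.filter_mem_eq_inter, Finset.univ_inter]
    have htop : (2 : ℝ) ^ Fintype.card (Fin r) / Nat.card (⊤ : Submodule (ZMod 2) (Fin r → ZMod 2)) = 1 := by
      have h1 : Nat.card (⊤ : Submodule (ZMod 2) (Fin r → ZMod 2)) = 2 ^ Fintype.card (Fin r) := by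
        rw [Nat.card_congr (Submodule.topEquiv (R := ZMod 2) (M := Fin r → ZMod 2)).toEquiv,
          Nat.card_eq_fintype_card, Fintype.card_fun, ZMod.card]
      rw [h1, Nat.cast_pow, Nat.cast_ofNat, div_self (by positivity)]
    have hq1' : 0 ≤ ∑ J ∈ J1, NS.pp (Fin r) (k * J.card) := Finset.sum_nonneg fun J _ => NS.pp_nonneg _
    have e1 : ∑ J ∈ J1, NS.pp (Fin r) (k * J.card) ≤ q1 := by
      refine le_trans (le_of_eq ?_) hq1
      exact Finset.sum_congr (Finset.filter_congr_decidable _ _ _) fun _ _ => rfl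
    have e2 : ∑ J ∈ J2, NS.pp (Fin r) (k * J.card) ≤ q2 := by
      refine le_trans (le_of_eq ?_) hq2
      exact Finset.sum_congr (Finset.filter_congr_decidable _ _ _) fun _ _ => rfl
    calc (((S.biUnion fun H => J1.biUnion fun J => B H J) ∪ J2.biUnion fun J => B ⊤ J).card : ℝ)
        ≤ ((S.biUnion fun H => J1.biUnion fun J => B H J).card : ℝ)
            + ((J2.biUnion fun J => B ⊤ J).card : ℝ) := by
          exact_mod_cast Finset.card_union_le _ _
      _ ≤ (∑ H ∈ S, ∑ J ∈ J1, ((B H J).card : ℝ)) + ∑ J ∈ J2, ((B ⊤ J).card : ℝ) := by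
          refine add_le_add ?_ ?_
          · calc ((S.biUnion fun H => J1.biUnion fun J => B H J).card : ℝ)
                ≤ ∑ H ∈ S, ((J1.biUnion fun J => B H J).card : ℝ) := by
                  exact_mod_cast Finset.card_biUnion_le
              _ ≤ ∑ H ∈ S, ∑ J ∈ J1, ((B H J).card : ℝ) := by
                  refine Finset.sum_le_sum fun H _ => ?_
                  exact_mod_cast Finset.card_biUnion_le
          · exact_mod_cast Finset.card_biUnion_le
      _ ≤ (∑ H ∈ S, ∑ J ∈ J1, 2 ^ Fintype.card (Fin r) / Nat.card H * NS.pp (Fin r) (k * J.card) * M)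
            + ∑ J ∈ J2, NS.pp (Fin r) (k * J.card) * M := by
          refine add_le_add ?_ ?_
          · exact Finset.sum_le_sum fun H _ => Finset.sum_le_sum fun J _ => hcard H J
          · refine Finset.sum_le_sum fun J _ => ?_
            have h := hcard ⊤ J
            rw [htop, one_mul] at h
            exact h
      _ = ((∑ H ∈ S, (2 ^ Fintype.card (Fin r) / Nat.card H : ℝ)) *
              ∑ J ∈ J1, NS.pp (Fin r) (k * J.card)) * M
            + (∑ J ∈ J2, NS.pp (Fin r) (k * J.card)) * M := by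
          rw [Finset.sum_mul_sum, Finset.sum_mul, Finset.sum_mul]
          congr 1
          exact Finset.sum_congr rfl fun H _ => (Finset.sum_mul _ _ _).symm
      _ ≤ (Fintype.card Gt * q1) * M + q2 * M := by
          refine add_le_add (mul_le_mul_of_nonneg_right ?_ hM0)
            (mul_le_mul_of_nonneg_right e2 hM0)
          exact mul_le_mul hS1 e1 hq1' (Nat.cast_nonneg _)
      _ = _ := by ring
  -- a good system
  obtain ⟨T, hT⟩ : ∃ T, T ∉ (S.biUnion fun H => J1.biUnion fun J => B H J) ∪ J2.biUnion fun J => B ⊤ J := by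
    by_contra hcon
    push Not at hcon
    rw [Finset.filter_true_of_mem (fun T _ => hcon T), Finset.card_univ, ← hM] at hbad
    nlinarith
  rw [Finset.mem_union, not_or] at hT
  obtain ⟨hT1, hT2⟩ := hT
  have hG : PS.Good (Z T) N τ := by
    intro g l h1 h2
    by_contra hcon
    push Not at hcon
    apply hT1
    rw [Finset.mem_biUnion]
    refine ⟨st g, Finset.mem_image_of_mem _ (mem_univ g), ?_⟩
    rw [Finset.mem_biUnion]
    refine ⟨univ.filter (fun j => l j ≠ 0), Finset.mem_filter.mpr ⟨mem_univ _, h1, h2⟩, ?_⟩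
    refine Finset.mem_filter.mpr ⟨mem_univ _, fun a ha => ?_⟩
    rw [← dot_supp, ← hB]
    apply hcon
    rw [hst]
    exact ha
  -- a dependency
  obtain ⟨c, hc0, hc⟩ : ∃ c : Fin (r + 1) → ZMod 2, c ≠ 0 ∧ ∀ a, PS.dot c (NS.A T a) = 0 := by
    by_contra hcon
    push Not at hcon
    have htop : LinearMap.range (NS.A T) = ⊤ := by
      rw [eq_top_iff]
      intro x _
      by_contra hx
      obtain ⟨μ, hμ, hμx⟩ := PS.sep (LinearMap.range (NS.A T)) x hx
      have hμ0 : μ ≠ 0 := by
        rintro rfl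
        exact hμx (PS.zero_dot x)
      obtain ⟨a, ha⟩ := hcon μ hμ0
      exact ha (hμ _ ⟨a, rfl⟩)
    have h1 := LinearMap.finrank_range_le (NS.A T)
    rw [htop, finrank_top, Module.finrank_fintype_fun_eq_card, Module.finrank_fintype_fun_eq_card,
      Fintype.card_fin, Fintype.card_fin] at h1
    omega
  have hwt : τ < PS.wt c := by
    by_contra hle
    push Not at hle
    apply hT2
    rw [Finset.mem_biUnion]
    refine ⟨univ.filter (fun j => c j ≠ 0), Finset.mem_filter.mpr ⟨mem_univ _, ?_, hle⟩, ?_⟩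
    · rw [Nat.one_le_iff_ne_zero]
      intro h0
      rw [Finset.card_eq_zero] at h0
      apply hc0
      funext j
      by_contra hj
      have : j ∈ univ.filter (fun j => c j ≠ 0) := Finset.mem_filter.mpr ⟨mem_univ _, hj⟩
      rw [h0] at this
      exact absurd this (Finset.notMem_empty _)
    · refine Finset.mem_filter.mpr ⟨mem_univ _, fun a _ => ?_⟩
      rw [← dot_supp]
      exact hc a
  obtain ⟨e, he, hev⟩ := PS.eval_shift hG hτ c hwt
  refine ⟨T, e, ?_, ?_⟩
  · intro a ha
    have h1 := hc a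
    rw [ha, he] at h1
    exact one_ne_zero h1
  · have h1 := hev 0
    rw [zero_add] at h1
    exact h1

end H522R3.ND
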