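import Pool.Agent.H522R3.ND.Ver
import Pool.Agent.H30R2.PS.Lin

set_option autoImplicit false
set_option linter.unusedSectionVars false

/-!
A symmetric nondeterministic network which accepts the unsolvable systems of linear equations modulo 2.
-/

namespace H522R3.ND

open Finset Pool.Agent.H30R2 Pool.Agent.H30R2.PS Pool.Agent.H30R2.NS

/-- the gates of the network -/
inductive UGate (k : ℕ) (X : Type)
  | inC (c : Clause k X)
  | gs (p : X × ZMod 2)
  | gS (c : Clause k X)
  | chk (c : Clause k X)
  | par (c : Clause k X)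
  | var (v : X)
  | deg (v : X)
  | tot
  | out

/-- the gates as a sum type -/
def UGate.equiv (k : ℕ) (X : Type) :
    UGate k X ≃ (Clause k X ⊕ (X × ZMod 2) ⊕ Clause k X ⊕ Clause k X ⊕ Clause k X ⊕ X ⊕ X ⊕ Unit ⊕ Unit) where
  toFun
    | .inC c => Sum.inl c
    | .gs p => Sum.inr (Sum.inl p)
    | .gS c => Sum.inr (Sum.inr (Sum.inl c))
    | .chk c => Sum.inr (Sum.inr (Sum.inr (Sum.inl c)))
    | .par c => Sum.inr (Sum.inr (Sum.inr (Sum.inr (Sum.inl c))))
    | .var v => Sum.inr (Sum.inr (Sum.inr (Sum.inr (Sum.inr (Sum.inl v)))))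
    | .deg v => Sum.inr (Sum.inr (Sum.inr (Sum.inr (Sum.inr (Sum.inr (Sum.inl v))))))
    | .tot => Sum.inr (Sum.inr (Sum.inr (Sum.inr (Sum.inr (Sum.inr (Sum.inr (Sum.inl ())))))))
    | .out => Sum.inr (Sum.inr (Sum.inr (Sum.inr (Sum.inr (Sum.inr (Sum.inr (Sum.inr ())))))))
  invFun
    | Sum.inl c => .inC c
    | Sum.inr (Sum.inl p) => .gs p
    | Sum.inr (Sum.inr (Sum.inl c)) => .gS c
    | Sum.inr (Sum.inr (Sum.inr (Sum.inl c))) => .chk c
    | Sum.inr (Sum.inr (Sum.inr (Sum.inr (Sum.inl c)))) => .par c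
    | Sum.inr (Sum.inr (Sum.inr (Sum.inr (Sum.inr (Sum.inl v))))) => .var v
    | Sum.inr (Sum.inr (Sum.inr (Sum.inr (Sum.inr (Sum.inr (Sum.inl v)))))) => .deg v
    | Sum.inr (Sum.inr (Sum.inr (Sum.inr (Sum.inr (Sum.inr (Sum.inr (Sum.inl ()))))))) => .tot
    | Sum.inr (Sum.inr (Sum.inr (Sum.inr (Sum.inr (Sum.inr (Sum.inr (Sum.inr ()))))))) => .out
  left_inv g := by cases g <;> rfl
  right_inv g := by rcases g with _ | _ | _ | _ | _ | _ | _ | _ | _ <;> rfl

instance (k : ℕ) (X : Type) [Fintype X] [DecidableEq X] : Fintype (UGate k X) :=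
  Fintype.ofEquiv _ (UGate.equiv k X).symm

variable {k : ℕ} {X : Type} [Fintype X] [DecidableEq X]

lemma sum_UGate {M : Type} [AddCommMonoid M] (f : UGate k X → M) :
    ∑ h, f h = ∑ c, f (.inC c) + (∑ p, f (.gs p) + (∑ c, f (.gS c) + (∑ c, f (.chk c) +
      (∑ c, f (.par c) + (∑ v, f (.var v) + (∑ v, f (.deg v) + (f .tot + f .out))))))) := by
  have hu : ∀ F : Unit → M, ∑ u, F u = F () := fun F => by simp
  rw [← Equiv.sum_comp (UGate.equiv k X).symm, Fintype.sum_sum_type, Fintype.sum_sum_type,
    Fintype.sum_sum_type, Fintype.sum_sum_type, Fintype.sum_sum_type, Fintype.sum_sum_type,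
    Fintype.sum_sum_type, Fintype.sum_sum_type, hu, hu]
  rfl

lemma card_UGate : Fintype.card (UGate k X) =
    4 * (2 * Fintype.card X) ^ k + 4 * Fintype.card X + 2 := by
  rw [Fintype.card_congr (UGate.equiv k X)]
  simp only [Fintype.card_sum, Fintype.card_prod, Fintype.card_fun, ZMod.card, Fintype.card_fin,
    Fintype.card_unit]
  ring

/-- number of occurrences of a variable in a clause -/
def vocc (v : X) (c : Clause k X) : ℕ := ((univ : Finset (Fin k)).filter fun l => (c l).1 = v).card

open Classical in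
/-- the network which checks certificates of unsolvability: a set `S` of equations of the system and an
assignment `z` such that every variable occurs an even number of times in `S` and an odd number of equations
of `S` is violated by `z` -/
noncomputable def uns (k : ℕ) (X : Type) [Fintype X] [DecidableEq X] :
    PS.Net (Clause k X ⊕ (Clause k X ⊕ (X × ZMod 2))) Bool (UGate k X) where
  inp
    | .inC c => some (Sum.inl c)
    | .gs p => some (Sum.inr (Sum.inr p))
    | .gS c => some (Sum.inr (Sum.inl c))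
    | _ => none
  w
    | .inC c, .chk c' => if c = c' then 2 else 0
    | .gS c, .chk c' => if c = c' then 1 else 0
    | .gS c, .par c' => if c = c' then k + 1 else 0
    | .gs p, .par c => occ p c
    | .gs p, .var v => if p.1 = v then 1 else 0
    | .gS c, .deg v => vocc v c
    | .par _, .tot => 1
    | .chk _, .out => 1
    | .var _, .out => 1
    | .deg _, .out => 1
    | .tot, .out => 1
    | _, _ => 0
  F
    | .chk _, s => decide (Multiset.count true s ≠ 1)
    | .par _, s => decide (k + 1 ≤ Multiset.count true s ∧ Even (Multiset.count true s - (k + 1)))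
    | .var _, s => decide (Multiset.count true s = 1)
    | .deg _, s => decide (Even (Multiset.count true s))
    | .tot, s => decide (Odd (Multiset.count true s))
    | _, s => decide (Multiset.count false s = 0)
  out := .out
  rank
    | .inC _ => 0
    | .gs _ => 0
    | .gS _ => 0
    | .chk _ => 1
    | .par _ => 1
    | .var _ => 1
    | .deg _ => 1
    | .tot => 2
    | .out => 3
  acyc := by
    intro h g hw
    cases h <;> cases g <;> first
      | exact absurd hw (lt_irrefl _)
      | norm_num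

variable (Φ : Set (Clause k X)) (S : Clause k X → Bool) (z : X × ZMod 2 → Bool)

/-- input values -/
noncomputable def ud : Clause k X ⊕ (Clause k X ⊕ (X × ZMod 2)) → Bool := data true false Φ (Sum.elim S z)

lemma uns_inC (c : Clause k X) : (uns k X).val (ud Φ S z) (.inC c) = true ↔ c ∈ Φ := by
  classical
  rw [Net.val_some (uns k X) _ (g := .inC c) (i := Sum.inl c) rfl]
  show (if c ∈ Φ then true else false) = true ↔ _
  by_cases h : c ∈ Φ
  · rw [if_pos h]; exact ⟨fun _ => h, fun _ => rfl⟩
  · rw [if_neg h]; exact ⟨fun h' => absurd h' (by decide), fun h' => absurd h' h⟩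

lemma uns_gs (p : X × ZMod 2) : (uns k X).val (ud Φ S z) (.gs p) = z p := by
  rw [Net.val_some (uns k X) _ (g := .gs p) (i := Sum.inr (Sum.inr p)) rfl]
  rfl

lemma uns_gS (c : Clause k X) : (uns k X).val (ud Φ S z) (.gS c) = S c := by
  rw [Net.val_some (uns k X) _ (g := .gS c) (i := Sum.inr (Sum.inl c)) rfl]
  rfl

lemma z0 {ι : Type} [Fintype ι] (f : ι → Bool) : ∑ i, 0 * (f i).toNat = 0 :=
  Finset.sum_eq_zero fun _ _ => zero_mul _

lemma uns_chk (c : Clause k X) : (uns k X).val (ud Φ S z) (.chk c) = true ↔ (S c = true → c ∈ Φ) := by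
  classical
  rw [Net.val_none (uns k X) _ (g := .chk c) rfl]
  show decide (Multiset.count true _ ≠ 1) = true ↔ _
  rw [count_true, sum_UGate, decide_eq_true_iff]
  have h1 : ∑ c', (uns k X).w (.inC c') (.chk c) * ((uns k X).val (ud Φ S z) (.inC c')).toNat =
      2 * ((uns k X).val (ud Φ S z) (.inC c)).toNat := by
    rw [Finset.sum_eq_single c]
    · have h2 : (uns k X).w (.inC c) (.chk c) = 2 := if_pos rfl
      rw [h2]
    · intro c' _ hc'
      have h2 : (uns k X).w (.inC c') (.chk c) = 0 := if_neg hc'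
      rw [h2, zero_mul]
    · intro h
      exact absurd (mem_univ _) h
  have h2 : ∑ c', (uns k X).w (.gS c') (.chk c) * ((uns k X).val (ud Φ S z) (.gS c')).toNat =
      (S c).toNat := by
    rw [Finset.sum_eq_single c]
    · have h2 : (uns k X).w (.gS c) (.chk c) = 1 := if_pos rfl
      rw [h2, uns_gS, one_mul]
    · intro c' _ hc'
      have h2 : (uns k X).w (.gS c') (.chk c) = 0 := if_neg hc'
      rw [h2, zero_mul]
    · intro h
      exact absurd (mem_univ _) h
  have e1 : ∑ p, (uns k X).w (.gs p) (.chk c) * ((uns k X).val (ud Φ S z) (.gs p)).toNat = 0 := z0 _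
  have e2 : ∑ p, (uns k X).w (.chk p) (.chk c) * ((uns k X).val (ud Φ S z) (.chk p)).toNat = 0 := z0 _
  have e3 : ∑ p, (uns k X).w (.par p) (.chk c) * ((uns k X).val (ud Φ S z) (.par p)).toNat = 0 := z0 _
  have e4 : ∑ p, (uns k X).w (.var p) (.chk c) * ((uns k X).val (ud Φ S z) (.var p)).toNat = 0 := z0 _
  have e5 : ∑ p, (uns k X).w (.deg p) (.chk c) * ((uns k X).val (ud Φ S z) (.deg p)).toNat = 0 := z0 _
  have e6 : (uns k X).w .tot (.chk c) * ((uns k X).val (ud Φ S z) .tot).toNat = 0 := zero_mul _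
  have e7 : (uns k X).w .out (.chk c) * ((uns k X).val (ud Φ S z) .out).toNat = 0 := zero_mul _
  rw [h1, h2, e1, e2, e3, e4, e5, e6, e7]
  have h3 := uns_inC Φ S z c
  cases hv : (uns k X).val (ud Φ S z) (.inC c) with
  | true =>
    have hc : c ∈ Φ := h3.mp hv
    cases S c with
    | true => exact ⟨fun _ _ => hc, fun _ => by decide⟩
    | false => exact ⟨fun _ _ => hc, fun _ => by decide⟩
  | false =>
    have hc : c ∉ Φ := fun h => by rw [h3.mpr h] at hv; exact absurd hv (by decide)
    cases S c with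
    | true => exact ⟨fun h => absurd rfl h, fun h => absurd (h rfl) hc⟩
    | false => exact ⟨fun _ h => absurd h (by decide), fun _ => by decide⟩

lemma uns_par (c : Clause k X) : (uns k X).val (ud Φ S z) (.par c) = true ↔ S c = true ∧ Even (nTrue z c) := by
  classical
  rw [Net.val_none (uns k X) _ (g := .par c) rfl]
  show decide (k + 1 ≤ Multiset.count true _ ∧ Even (Multiset.count true _ - (k + 1))) = true ↔ _
  rw [count_true, sum_UGate, decide_eq_true_iff]
  have h1 : ∑ p, (uns k X).w (.gs p) (.par c) * ((uns k X).val (ud Φ S z) (.gs p)).toNat = nTrue z c := by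
    rw [← sum_occ]
    refine Finset.sum_congr rfl fun p _ => ?_
    rw [uns_gs]
    rfl
  have h2 : ∑ c', (uns k X).w (.gS c') (.par c) * ((uns k X).val (ud Φ S z) (.gS c')).toNat =
      (k + 1) * (S c).toNat := by
    rw [Finset.sum_eq_single c]
    · have h2 : (uns k X).w (.gS c) (.par c) = k + 1 := if_pos rfl
      rw [h2, uns_gS]
    · intro c' _ hc'
      have h2 : (uns k X).w (.gS c') (.par c) = 0 := if_neg hc'
      rw [h2, zero_mul]
    · intro h
      exact absurd (mem_univ _) h
  have e1 : ∑ p, (uns k X).w (.inC p) (.par c) * ((uns k X).val (ud Φ S z) (.inC p)).toNat = 0 := z0 _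
  have e2 : ∑ p, (uns k X).w (.chk p) (.par c) * ((uns k X).val (ud Φ S z) (.chk p)).toNat = 0 := z0 _
  have e3 : ∑ p, (uns k X).w (.par p) (.par c) * ((uns k X).val (ud Φ S z) (.par p)).toNat = 0 := z0 _
  have e4 : ∑ p, (uns k X).w (.var p) (.par c) * ((uns k X).val (ud Φ S z) (.var p)).toNat = 0 := z0 _
  have e5 : ∑ p, (uns k X).w (.deg p) (.par c) * ((uns k X).val (ud Φ S z) (.deg p)).toNat = 0 := z0 _
  have e6 : (uns k X).w .tot (.par c) * ((uns k X).val (ud Φ S z) .tot).toNat = 0 := zero_mul _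
  have e7 : (uns k X).w .out (.par c) * ((uns k X).val (ud Φ S z) .out).toNat = 0 := zero_mul _
  rw [h1, h2, e1, e2, e3, e4, e5, e6, e7]
  have hle : nTrue z c ≤ k := by
    unfold nTrue
    exact (Finset.card_filter_le _ _).trans (by rw [Finset.card_univ, Fintype.card_fin])
  cases S c with
  | true =>
    have h3 : 0 + (nTrue z c + ((k + 1) * Bool.toNat true + (0 + (0 + (0 + (0 + (0 + 0))))))) - (k + 1) =
        nTrue z c := by
      show 0 + (nTrue z c + ((k + 1) * 1 + (0 + (0 + (0 + (0 + (0 + 0))))))) - (k + 1) = _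
      omega
    rw [h3]
    constructor
    · rintro ⟨_, h⟩; exact ⟨rfl, h⟩
    · rintro ⟨_, h⟩
      refine ⟨?_, h⟩
      show k + 1 ≤ 0 + (nTrue z c + ((k + 1) * 1 + (0 + (0 + (0 + (0 + (0 + 0)))))))
      omega
  | false =>
    constructor
    · rintro ⟨h, _⟩
      have h' : k + 1 ≤ 0 + (nTrue z c + ((k + 1) * 0 + (0 + (0 + (0 + (0 + (0 + 0))))))) := h
      omega
    · rintro ⟨h, _⟩
      exact absurd h (by decide)

lemma uns_var (v : X) : (uns k X).val (ud Φ S z) (.var v) = true ↔
    (z (v, 0)).toNat + (z (v, 1)).toNat = 1 := by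
  classical
  rw [Net.val_none (uns k X) _ (g := .var v) rfl]
  show decide (Multiset.count true _ = 1) = true ↔ _
  rw [count_true, sum_UGate, decide_eq_true_iff]
  have h2 : ∑ p, (uns k X).w (.gs p) (.var v) * ((uns k X).val (ud Φ S z) (.gs p)).toNat =
      (z (v, 0)).toNat + (z (v, 1)).toNat := by
    rw [← sum_zmod (fun p => (z p).toNat) v]
    refine Finset.sum_congr rfl fun p _ => ?_
    rw [uns_gs]
    show (if p.1 = v then 1 else 0) * (z p).toNat = _
    split_ifs
    · exact one_mul _
    · exact zero_mul _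
  have e1 : ∑ p, (uns k X).w (.inC p) (.var v) * ((uns k X).val (ud Φ S z) (.inC p)).toNat = 0 := z0 _
  have e0 : ∑ p, (uns k X).w (.gS p) (.var v) * ((uns k X).val (ud Φ S z) (.gS p)).toNat = 0 := z0 _
  have e2 : ∑ p, (uns k X).w (.chk p) (.var v) * ((uns k X).val (ud Φ S z) (.chk p)).toNat = 0 := z0 _
  have e3 : ∑ p, (uns k X).w (.par p) (.var v) * ((uns k X).val (ud Φ S z) (.par p)).toNat = 0 := z0 _
  have e4 : ∑ p, (uns k X).w (.var p) (.var v) * ((uns k X).val (ud Φ S z) (.var p)).toNat = 0 := z0 _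
  have e5 : ∑ p, (uns k X).w (.deg p) (.var v) * ((uns k X).val (ud Φ S z) (.deg p)).toNat = 0 := z0 _
  have e6 : (uns k X).w .tot (.var v) * ((uns k X).val (ud Φ S z) .tot).toNat = 0 := zero_mul _
  have e7 : (uns k X).w .out (.var v) * ((uns k X).val (ud Φ S z) .out).toNat = 0 := zero_mul _
  rw [h2, e0, e1, e2, e3, e4, e5, e6, e7]
  simp only [zero_add, add_zero]

lemma uns_deg (v : X) : (uns k X).val (ud Φ S z) (.deg v) = true ↔
    Even (∑ c, vocc v c * (S c).toNat) := by
  classical
  rw [Net.val_none (uns k X) _ (g := .deg v) rfl]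
  show decide (Even (Multiset.count true _)) = true ↔ _
  rw [count_true, sum_UGate, decide_eq_true_iff]
  have h2 : ∑ c, (uns k X).w (.gS c) (.deg v) * ((uns k X).val (ud Φ S z) (.gS c)).toNat =
      ∑ c, vocc v c * (S c).toNat := by
    refine Finset.sum_congr rfl fun c _ => ?_
    rw [uns_gS]
    rfl
  have e1 : ∑ p, (uns k X).w (.inC p) (.deg v) * ((uns k X).val (ud Φ S z) (.inC p)).toNat = 0 := z0 _
  have e0 : ∑ p, (uns k X).w (.gs p) (.deg v) * ((uns k X).val (ud Φ S z) (.gs p)).toNat = 0 := z0 _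
  have e2 : ∑ p, (uns k X).w (.chk p) (.deg v) * ((uns k X).val (ud Φ S z) (.chk p)).toNat = 0 := z0 _
  have e3 : ∑ p, (uns k X).w (.par p) (.deg v) * ((uns k X).val (ud Φ S z) (.par p)).toNat = 0 := z0 _
  have e4 : ∑ p, (uns k X).w (.var p) (.deg v) * ((uns k X).val (ud Φ S z) (.var p)).toNat = 0 := z0 _
  have e5 : ∑ p, (uns k X).w (.deg p) (.deg v) * ((uns k X).val (ud Φ S z) (.deg p)).toNat = 0 := z0 _
  have e6 : (uns k X).w .tot (.deg v) * ((uns k X).val (ud Φ S z) .tot).toNat = 0 := zero_mul _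
  have e7 : (uns k X).w .out (.deg v) * ((uns k X).val (ud Φ S z) .out).toNat = 0 := zero_mul _
  rw [h2, e0, e1, e2, e3, e4, e5, e6, e7]
  simp only [zero_add, add_zero]

/-- the number of selected equations which are violated -/
noncomputable def nPar : ℕ := ∑ c : Clause k X, (if S c = true ∧ Even (nTrue z c) then 1 else 0)

lemma uns_tot : (uns k X).val (ud Φ S z) .tot = true ↔ Odd (nPar S z) := by
  classical
  rw [Net.val_none (uns k X) _ (g := .tot) rfl]
  show decide (Odd (Multiset.count true _)) = true ↔ _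
  rw [count_true, sum_UGate, decide_eq_true_iff]
  have h2 : ∑ c, (uns k X).w (.par c) .tot * ((uns k X).val (ud Φ S z) (.par c)).toNat = nPar S z := by
    unfold nPar
    refine Finset.sum_congr rfl fun c _ => ?_
    have h3 : (uns k X).w (.par c) .tot = 1 := rfl
    rw [h3, one_mul]
    by_cases h : S c = true ∧ Even (nTrue z c)
    · rw [if_pos h, (uns_par Φ S z c).mpr h]
      rfl
    · rw [if_neg h]
      have : (uns k X).val (ud Φ S z) (.par c) = false := by
        rw [← Bool.not_eq_true]
        exact fun h' => h ((uns_par Φ S z c).mp h')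
      rw [this]
      rfl
  have e1 : ∑ p, (uns k X).w (.inC p) .tot * ((uns k X).val (ud Φ S z) (.inC p)).toNat = 0 := z0 _
  have e0 : ∑ p, (uns k X).w (.gs p) .tot * ((uns k X).val (ud Φ S z) (.gs p)).toNat = 0 := z0 _
  have e2 : ∑ p, (uns k X).w (.chk p) .tot * ((uns k X).val (ud Φ S z) (.chk p)).toNat = 0 := z0 _
  have e3 : ∑ p, (uns k X).w (.gS p) .tot * ((uns k X).val (ud Φ S z) (.gS p)).toNat = 0 := z0 _
  have e4 : ∑ p, (uns k X).w (.var p) .tot * ((uns k X).val (ud Φ S z) (.var p)).toNat = 0 := z0 _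
  have e5 : ∑ p, (uns k X).w (.deg p) .tot * ((uns k X).val (ud Φ S z) (.deg p)).toNat = 0 := z0 _
  have e6 : (uns k X).w .tot .tot * ((uns k X).val (ud Φ S z) .tot).toNat = 0 := zero_mul _
  have e7 : (uns k X).w .out .tot * ((uns k X).val (ud Φ S z) .out).toNat = 0 := zero_mul _
  rw [h2, e0, e1, e2, e3, e4, e5, e6, e7]
  simp only [zero_add, add_zero]

lemma uns_eval : (uns k X).eval (ud Φ S z) = true ↔ (∀ c, S c = true → c ∈ Φ) ∧
    (∀ v, (z (v, 0)).toNat + (z (v, 1)).toNat = 1) ∧ (∀ v, Even (∑ c, vocc v c * (S c).toNat)) ∧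
    Odd (nPar S z) := by
  classical
  show (uns k X).val (ud Φ S z) .out = true ↔ _
  rw [Net.val_none (uns k X) _ (g := .out) rfl]
  show decide (Multiset.count false _ = 0) = true ↔ _
  rw [count_false, sum_UGate, decide_eq_true_iff]
  have e1 : ∑ p, (uns k X).w (.inC p) .out * (!(uns k X).val (ud Φ S z) (.inC p)).toNat = 0 := z0 _
  have e0 : ∑ p, (uns k X).w (.gs p) .out * (!(uns k X).val (ud Φ S z) (.gs p)).toNat = 0 := z0 _
  have e3 : ∑ p, (uns k X).w (.gS p) .out * (!(uns k X).val (ud Φ S z) (.gS p)).toNat = 0 := z0 _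
  have e4 : ∑ p, (uns k X).w (.par p) .out * (!(uns k X).val (ud Φ S z) (.par p)).toNat = 0 := z0 _
  have e7 : (uns k X).w .out .out * (!(uns k X).val (ud Φ S z) .out).toNat = 0 := zero_mul _
  have hb : ∀ b : Bool, 1 * (!b).toNat = 0 ↔ b = true := by decide
  rw [e1, e0, e3, e4, e7]
  simp only [zero_add, add_zero]
  rw [Nat.add_eq_zero_iff, Nat.add_eq_zero_iff, Nat.add_eq_zero_iff, Finset.sum_eq_zero_iff,
    Finset.sum_eq_zero_iff, Finset.sum_eq_zero_iff]
  refine and_congr ?_ (and_congr ?_ (and_congr ?_ ?_))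
  · constructor
    · intro h c
      exact (uns_chk Φ S z c).mp ((hb _).mp (h c (mem_univ _)))
    · intro h c _
      exact (hb _).mpr ((uns_chk Φ S z c).mpr (h c))
  · constructor
    · intro h c
      exact (uns_var Φ S z c).mp ((hb _).mp (h c (mem_univ _)))
    · intro h c _
      exact (hb _).mpr ((uns_var Φ S z c).mpr (h c))
  · constructor
    · intro h c
      exact (uns_deg Φ S z c).mp ((hb _).mp (h c (mem_univ _)))
    · intro h c _
      exact (hb _).mpr ((uns_deg Φ S z c).mpr (h c))
  · constructor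
    · intro h
      exact (uns_tot Φ S z).mp ((hb _).mp h)
    · intro h
      exact (hb _).mpr ((uns_tot Φ S z).mpr h)

/-! ### Certificates of unsolvability -/

lemma cast_nTrue (t : X → ZMod 2) (c : Clause k X) :
    ((nTrue (oneHot t) c : ℕ) : ZMod 2) = ∑ l, (1 + t (c l).1 + (c l).2) := by
  rw [nTrue_oneHot, Finset.card_filter, Nat.cast_sum]
  refine Finset.sum_congr rfl fun l _ => ?_
  generalize t (c l).1 = a
  generalize (c l).2 = b
  revert a b
  decide

lemma oddTrue_iff (t : X → ZMod 2) (c : Clause k X) :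
    OddTrue t c ↔ ∑ l, (1 + t (c l).1 + (c l).2) = 1 := by
  rw [← cast_nTrue, nTrue_oneHot, ZMod.natCast_eq_one_iff_odd]
  exact Iff.rfl

lemma even_iff (t : X → ZMod 2) (c : Clause k X) :
    Even (nTrue (oneHot t) c) ↔ ∑ l, (1 + t (c l).1 + (c l).2) = 0 := by
  rw [← cast_nTrue, ZMod.natCast_eq_zero_iff_even]

/-- the parity of the number of violated selected equations -/
lemma cast_nPar (t : X → ZMod 2) : ((nPar S (oneHot t) : ℕ) : ZMod 2) =
    ∑ c, ((S c).toNat : ZMod 2) * (1 + ∑ l, (1 + t (c l).1 + (c l).2)) := by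
  unfold nPar
  rw [Nat.cast_sum]
  refine Finset.sum_congr rfl fun c _ => ?_
  have h := even_iff t c
  have h01 : ∀ u : ZMod 2, u = 0 ∨ u = 1 := by decide
  cases hS : S c with
  | false =>
    rw [if_neg (by rintro ⟨h', _⟩; exact absurd h' (by decide))]
    show ((0 : ℕ) : ZMod 2) = ((0 : ℕ) : ZMod 2) * _
    rw [Nat.cast_zero, zero_mul]
  | true =>
    rcases h01 (∑ l, (1 + t (c l).1 + (c l).2)) with h0 | h1
    · rw [if_pos ⟨rfl, h.mpr h0⟩, h0]
      show ((1 : ℕ) : ZMod 2) = ((1 : ℕ) : ZMod 2) * _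
      rw [Nat.cast_one, one_mul, add_zero]
    · rw [if_neg (by
        rintro ⟨_, h'⟩
        rw [h.mp h'] at h1
        exact zero_ne_one h1), h1]
      show ((0 : ℕ) : ZMod 2) = ((1 : ℕ) : ZMod 2) * (1 + 1)
      decide

lemma sum_vocc (x : X → ZMod 2) (c : Clause k X) : ∑ v, ((vocc v c : ℕ) : ZMod 2) * x v = ∑ l, x (c l).1 := by
  unfold vocc
  simp_rw [Finset.card_filter, Nat.cast_sum, Finset.sum_mul]
  rw [Finset.sum_comm]
  refine Finset.sum_congr rfl fun l _ => ?_
  rw [Finset.sum_eq_single (c l).1]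
  · rw [if_pos rfl, Nat.cast_one, one_mul]
  · intro p _ hp
    rw [if_neg (Ne.symm hp), Nat.cast_zero, zero_mul]
  · intro h
    exact absurd (mem_univ _) h

lemma sum_deg (x : X → ZMod 2) : ∑ v, ((∑ c, vocc v c * (S c).toNat : ℕ) : ZMod 2) * x v =
    ∑ c : Clause k X, ((S c).toNat : ZMod 2) * ∑ l, x (c l).1 := by
  have h : ∀ v, ((∑ c : Clause k X, vocc v c * (S c).toNat : ℕ) : ZMod 2) * x v =
      ∑ c : Clause k X, ((S c).toNat : ZMod 2) * (((vocc v c : ℕ) : ZMod 2) * x v) := by
    intro v
    rw [Nat.cast_sum, Finset.sum_mul]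
    refine Finset.sum_congr rfl fun c _ => ?_
    rw [Nat.cast_mul]
    ring
  simp_rw [h]
  rw [Finset.sum_comm]
  refine Finset.sum_congr rfl fun c _ => ?_
  rw [← Finset.mul_sum, sum_vocc]

/-- The certificates are exactly the certificates of unsolvability. -/
theorem uns_exists : (∃ y, (uns k X).eval (data true false Φ y) = true) ↔ ¬ OddSat Φ := by
  classical
  constructor
  · rintro ⟨y, hy⟩ ⟨x, hx⟩
    have hy1 : y = Sum.elim (fun c => y (Sum.inl c)) (fun p => y (Sum.inr p)) := by
      funext i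
      rcases i with i | i <;> rfl
    obtain ⟨S, z, rfl⟩ : ∃ S z, y = Sum.elim S z := ⟨_, _, hy1⟩
    obtain ⟨h1, h2, h3, h4⟩ := (uns_eval Φ S z).mp hy
    obtain ⟨t, rfl⟩ := exists_oneHot z h2
    rw [← ZMod.natCast_eq_one_iff_odd, cast_nPar] at h4
    have hdeg : ∀ w : X → ZMod 2, ∑ c : Clause k X, ((S c).toNat : ZMod 2) * ∑ l, w (c l).1 = 0 := by
      intro w
      rw [← sum_deg]
      refine Finset.sum_eq_zero fun v _ => ?_
      rw [(ZMod.natCast_eq_zero_iff_even).mpr (h3 v), zero_mul]
    have hx' : ∀ c : Clause k X, ((S c).toNat : ZMod 2) * (1 + ∑ l, (1 + x (c l).1 + (c l).2)) = 0 := by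
      intro c
      cases hS : S c with
      | false =>
        show ((0 : ℕ) : ZMod 2) * _ = 0
        rw [Nat.cast_zero, zero_mul]
      | true =>
        have := (oddTrue_iff x c).mp (hx c (h1 c hS))
        rw [this]
        show ((1 : ℕ) : ZMod 2) * (1 + 1) = 0
        decide
    have hsum : ∑ c : Clause k X, ((S c).toNat : ZMod 2) * (1 + ∑ l, (1 + t (c l).1 + (c l).2)) =
        ∑ c : Clause k X, ((S c).toNat : ZMod 2) * (1 + ∑ l, (1 + x (c l).1 + (c l).2)) +
        ∑ c : Clause k X, ((S c).toNat : ZMod 2) * ∑ l, (t (c l).1 + x (c l).1) := by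
      rw [← Finset.sum_add_distrib]
      refine Finset.sum_congr rfl fun c _ => ?_
      rw [← mul_add]
      congr 1
      rw [add_assoc, ← Finset.sum_add_distrib]
      congr 1
      refine Finset.sum_congr rfl fun l _ => ?_
      generalize t (c l).1 = a
      generalize x (c l).1 = b
      generalize (c l).2 = d
      revert a b d
      decide
    rw [hsum, Finset.sum_eq_zero (fun c _ => hx' c), hdeg (fun v => t v + x v), add_zero] at h4
    exact zero_ne_one h4
  · intro h
    let A : (X → ZMod 2) →ₗ[ZMod 2] (Clause k X → ZMod 2) :=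
      { toFun := fun x c => if c ∈ Φ then ∑ l, x (c l).1 else 0
        map_add' := by
          intro x y
          funext c
          show (if c ∈ Φ then ∑ l, (x (c l).1 + y (c l).1) else 0) =
            (if c ∈ Φ then ∑ l, x (c l).1 else 0) + (if c ∈ Φ then ∑ l, y (c l).1 else 0)
          split_ifs
          · exact Finset.sum_add_distrib
          · exact (add_zero 0).symm
        map_smul' := by
          intro r x
          funext c
          show (if c ∈ Φ then ∑ l, r * x (c l).1 else 0) = r * (if c ∈ Φ then ∑ l, x (c l).1 else 0)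
          split_ifs
          · rw [Finset.mul_sum]
          · rw [mul_zero] }
    let b : Clause k X → ZMod 2 := fun c => if c ∈ Φ then 1 + ∑ l, (1 + (c l).2) else 0
    have hb : b ∉ LinearMap.range A := by
      rintro ⟨x, hx⟩
      apply h
      refine ⟨x, fun c hc => (oddTrue_iff x c).mpr ?_⟩
      have h1 := congrFun hx c
      have h2 : (if c ∈ Φ then ∑ l, x (c l).1 else 0) = if c ∈ Φ then 1 + ∑ l, (1 + (c l).2) else 0 := h1
      rw [if_pos hc, if_pos hc] at h2
      have h3 : ∑ l, (1 + x (c l).1 + (c l).2) = ∑ l, x (c l).1 + ∑ l, (1 + (c l).2) := by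
        rw [← Finset.sum_add_distrib]
        refine Finset.sum_congr rfl fun l _ => ?_
        ring
      rw [h3, h2, add_assoc, CharTwo.add_self_eq_zero, add_zero]
    obtain ⟨μ, hμ, hμb⟩ := PS.sep (LinearMap.range A) b hb
    let S : Clause k X → Bool := fun c => decide (c ∈ Φ ∧ μ c ≠ 0)
    have hSμ : ∀ (c : Clause k X) (u : ZMod 2), μ c * (if c ∈ Φ then u else 0) = ((S c).toNat : ZMod 2) * u := by
      intro c u
      have h01 : ∀ w : ZMod 2, w ≠ 0 → w = 1 := by decide
      by_cases hc : c ∈ Φ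
      · rw [if_pos hc]
        by_cases hm : μ c = 0
        · have : S c = false := decide_eq_false (fun h' => h'.2 hm)
          rw [this, hm]
          show 0 * u = ((0 : ℕ) : ZMod 2) * u
          rw [Nat.cast_zero]
        · have : S c = true := decide_eq_true ⟨hc, hm⟩
          rw [this, h01 _ hm]
          show 1 * u = ((1 : ℕ) : ZMod 2) * u
          rw [Nat.cast_one]
      · rw [if_neg hc, mul_zero]
        have : S c = false := decide_eq_false (fun h' => hc h'.1)
        rw [this]
        show 0 = ((0 : ℕ) : ZMod 2) * u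
        rw [Nat.cast_zero, zero_mul]
    refine ⟨Sum.elim S (oneHot 0), (uns_eval Φ S (oneHot 0)).mpr ⟨?_, oneHot_one 0, ?_, ?_⟩⟩
    · intro c hc
      exact (of_decide_eq_true hc).1
    · intro v
      rw [← ZMod.natCast_eq_zero_iff_even]
      have h1 := hμ _ ⟨Pi.single v 1, rfl⟩
      have h2 : PS.dot μ (A (Pi.single v 1)) =
          ∑ c : Clause k X, ((S c).toNat : ZMod 2) * ∑ l, (Pi.single v (1 : ZMod 2) : X → ZMod 2) (c l).1 := by
        unfold PS.dot
        refine Finset.sum_congr rfl fun c _ => ?_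
        exact hSμ c _
      rw [h2, ← sum_deg, Finset.sum_eq_single v] at h1
      · rw [Pi.single_eq_same, mul_one] at h1
        exact h1
      · intro v' _ hv'
        rw [Pi.single_eq_of_ne hv', mul_zero]
      · intro hv
        exact absurd (mem_univ _) hv
    · rw [← ZMod.natCast_eq_one_iff_odd, cast_nPar]
      have h2 : PS.dot μ b = ∑ c : Clause k X, ((S c).toNat : ZMod 2) * (1 + ∑ l, (1 + (c l).2)) := by
        unfold PS.dot
        refine Finset.sum_congr rfl fun c _ => ?_
        exact hSμ c _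
      have h01 : ∀ w : ZMod 2, w ≠ 0 → w = 1 := by decide
      rw [h2] at hμb
      have h3 := h01 _ hμb
      refine Eq.trans ?_ h3
      refine Finset.sum_congr rfl fun c _ => ?_
      have e : ∑ l, (1 + (0 : X → ZMod 2) (c l).1 + (c l).2) = ∑ l, (1 + (c l).2) := by
        refine Finset.sum_congr rfl fun l _ => ?_
        show 1 + (0 : ZMod 2) + (c l).2 = 1 + (c l).2
        rw [add_zero]
      rw [e]

/-- the automorphism -/
def unsPerm (a : X → ZMod 2) : Equiv.Perm (UGate k X) where
  toFun
    | .inC c => .inC (neg a c)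
    | .gs p => .gs (lit a p)
    | .gS c => .gS (neg a c)
    | .chk c => .chk (neg a c)
    | .par c => .par (neg a c)
    | .var v => .var v
    | .deg v => .deg v
    | .tot => .tot
    | .out => .out
  invFun
    | .inC c => .inC ((neg a).symm c)
    | .gs p => .gs ((lit a).symm p)
    | .gS c => .gS ((neg a).symm c)
    | .chk c => .chk ((neg a).symm c)
    | .par c => .par ((neg a).symm c)
    | .var v => .var v
    | .deg v => .deg v
    | .tot => .tot
    | .out => .out
  left_inv g := by
    cases g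
    · exact congrArg UGate.inC (Equiv.symm_apply_apply _ _)
    · exact congrArg UGate.gs (Equiv.symm_apply_apply _ _)
    · exact congrArg UGate.gS (Equiv.symm_apply_apply _ _)
    · exact congrArg UGate.chk (Equiv.symm_apply_apply _ _)
    · exact congrArg UGate.par (Equiv.symm_apply_apply _ _)
    all_goals rfl
  right_inv g := by
    cases g
    · exact congrArg UGate.inC (Equiv.apply_symm_apply _ _)
    · exact congrArg UGate.gs (Equiv.apply_symm_apply _ _)
    · exact congrArg UGate.gS (Equiv.apply_symm_apply _ _)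
    · exact congrArg UGate.chk (Equiv.apply_symm_apply _ _)
    · exact congrArg UGate.par (Equiv.apply_symm_apply _ _)
    all_goals rfl

lemma uns_aut (a : X → ZMod 2) :
    (uns k X).IsAut (Equiv.sumCongr (neg a) (Equiv.sumCongr (neg a) (lit a))) (unsPerm a) := by
  classical
  have hif : ∀ (c c' : Clause k X) (u : ℕ), (if neg a c = neg a c' then u else 0) = if c = c' then u else 0 := by
    intro c c' u
    by_cases hc : c = c'
    · rw [if_pos hc, if_pos (by rw [hc])]
    · rw [if_neg hc, if_neg (fun h' => hc ((neg _).injective h'))]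
  refine ⟨?_, ?_, ?_, rfl⟩
  · intro g
    cases g <;> rfl
  · intro h g
    cases h with
    | inC c =>
      cases g with
      | chk c' => exact hif c c' 2
      | _ => rfl
    | gs p =>
      cases g with
      | par c => exact occ_neg _ p c
      | _ => rfl
    | gS c =>
      cases g with
      | chk c' => exact hif c c' 1
      | par c' => exact hif c c' (k + 1)
      | _ => rfl
    | _ => cases g <;> rfl
  · intro g
    cases g <;> rfl

end H522R3.ND
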