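import Pool.Agent.H522R3.ND.Defs

set_option autoImplicit false
set_option linter.unusedSectionVars false

/-!
The network which verifies a guessed assignment.
-/

namespace H522R3.ND

open Finset Pool.Agent.H30R2 Pool.Agent.H30R2.PS Pool.Agent.H30R2.NS

lemma count_true {Gt : Type} [Fintype Gt] (w : Gt → ℕ) (f : Gt → Bool) :
    Multiset.count true (∑ h, w h • ({f h} : Multiset Bool)) = ∑ h, w h * (f h).toNat := by
  rw [Multiset.count_sum']
  refine Finset.sum_congr rfl fun h _ => ?_
  rw [Multiset.count_nsmul, Multiset.count_singleton]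
  cases f h <;> rfl

lemma count_false {Gt : Type} [Fintype Gt] (w : Gt → ℕ) (f : Gt → Bool) :
    Multiset.count false (∑ h, w h • ({f h} : Multiset Bool)) = ∑ h, w h * (!f h).toNat := by
  rw [Multiset.count_sum']
  refine Finset.sum_congr rfl fun h _ => ?_
  rw [Multiset.count_nsmul, Multiset.count_singleton]
  cases f h <;> rfl

/-- the gates of the verifying network -/
inductive VGate (k : ℕ) (V : Type)
  | inC (c : Clause k V)
  | gs (p : V × ZMod 2)
  | chk (c : Clause k V)
  | var (v : V)
  | out

/-- the gates as a sum type -/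
def VGate.equiv (k : ℕ) (V : Type) :
    VGate k V ≃ Clause k V ⊕ (V × ZMod 2) ⊕ Clause k V ⊕ V ⊕ Unit where
  toFun
    | .inC c => Sum.inl c
    | .gs p => Sum.inr (Sum.inl p)
    | .chk c => Sum.inr (Sum.inr (Sum.inl c))
    | .var v => Sum.inr (Sum.inr (Sum.inr (Sum.inl v)))
    | .out => Sum.inr (Sum.inr (Sum.inr (Sum.inr ())))
  invFun
    | Sum.inl c => .inC c
    | Sum.inr (Sum.inl p) => .gs p
    | Sum.inr (Sum.inr (Sum.inl c)) => .chk c
    | Sum.inr (Sum.inr (Sum.inr (Sum.inl v))) => .var v
    | Sum.inr (Sum.inr (Sum.inr (Sum.inr ()))) => .out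
  left_inv g := by cases g <;> rfl
  right_inv g := by rcases g with _ | _ | _ | _ | _ <;> rfl

instance (k : ℕ) (V : Type) [Fintype V] [DecidableEq V] : Fintype (VGate k V) :=
  Fintype.ofEquiv _ (VGate.equiv k V).symm

variable {k : ℕ} {V X : Type} [Fintype V] [DecidableEq V]

lemma sum_VGate {M : Type} [AddCommMonoid M] (f : VGate k V → M) :
    ∑ h, f h = ∑ c, f (.inC c) + (∑ p, f (.gs p) + (∑ c, f (.chk c) + (∑ v, f (.var v) + f .out))) := by
  have hu : ∀ F : Unit → M, ∑ u, F u = F () := fun F => by simp
  rw [← Equiv.sum_comp (VGate.equiv k V).symm, Fintype.sum_sum_type, Fintype.sum_sum_type,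
    Fintype.sum_sum_type, Fintype.sum_sum_type, hu]
  rfl

lemma card_VGate : Fintype.card (VGate k V) =
    2 * (2 * Fintype.card V) ^ k + 3 * Fintype.card V + 1 := by
  rw [Fintype.card_congr (VGate.equiv k V)]
  simp only [Fintype.card_sum, Fintype.card_prod, Fintype.card_fun, ZMod.card, Fintype.card_fin,
    Fintype.card_unit]
  ring

/-- number of occurrences of a literal in a clause -/
def occ (p : V × ZMod 2) (c : Clause k V) : ℕ := ((univ : Finset (Fin k)).filter fun l => c l = p).card

/-- The network which reads a formula over `X` and a guessed assignment of the variables `V` (two guess inputs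
per variable, exactly one of them true) and checks that in all clauses of the formula over `V` the number of
true literals is accepted by `ok`. -/
noncomputable def ver (ι : V → X) (ok : ℕ → Bool) :
    PS.Net (Clause k X ⊕ (V × ZMod 2)) Bool (VGate k V) where
  inp
    | .inC c => some (Sum.inl (mapc ι c))
    | .gs p => some (Sum.inr p)
    | .chk _ => none
    | .var _ => none
    | .out => none
  w
    | .inC c, .chk c' => if c = c' then k + 1 else 0
    | .gs p, .chk c => occ p c
    | .gs p, .var v => if p.1 = v then 1 else 0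
    | .chk _, .out => 1
    | .var _, .out => 1
    | _, _ => 0
  F
    | .chk _, s => decide (Multiset.count true s < k + 1) || ok (Multiset.count true s - (k + 1))
    | .var _, s => decide (Multiset.count true s = 1)
    | _, s => decide (Multiset.count false s = 0)
  out := .out
  rank
    | .inC _ => 0
    | .gs _ => 0
    | .chk _ => 1
    | .var _ => 1
    | .out => 2
  acyc := by
    intro h g hw
    cases h <;> cases g <;> first
      | exact absurd hw (lt_irrefl _)
      | norm_num

variable (ι : V → X) (ok : ℕ → Bool) (Φ : Set (Clause k X)) (y : V × ZMod 2 → Bool)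

lemma ver_inC (c : Clause k V) : (ver (k := k) ι ok).val (data true false Φ y) (.inC c) = true ↔ mapc ι c ∈ Φ := by
  classical
  rw [Net.val_some (ver (k := k) ι ok) _ (g := .inC c) (i := Sum.inl (mapc ι c)) rfl]
  show (if mapc ι c ∈ Φ then true else false) = true ↔ _
  by_cases h : mapc ι c ∈ Φ
  · rw [if_pos h]; exact ⟨fun _ => h, fun _ => rfl⟩
  · rw [if_neg h]; exact ⟨fun h' => absurd h' (by decide), fun h' => absurd h' h⟩

lemma ver_gs (p : V × ZMod 2) : (ver (k := k) ι ok).val (data true false Φ y) (.gs p) = y p := by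
  rw [Net.val_some (ver (k := k) ι ok) _ (g := .gs p) (i := Sum.inr p) rfl]
  rfl

/-- the number of true literals -/
def nTrue (c : Clause k V) : ℕ := ((univ : Finset (Fin k)).filter fun l => y (c l) = true).card

lemma sum_occ (c : Clause k V) : ∑ p, occ p c * (y p).toNat = nTrue y c := by
  unfold occ nTrue
  simp_rw [Finset.card_filter, Finset.sum_mul]
  rw [Finset.sum_comm]
  refine Finset.sum_congr rfl fun l _ => ?_
  rw [Finset.sum_eq_single (c l)]
  · rw [if_pos rfl, one_mul]
    cases y (c l) <;> rfl
  · intro p _ hp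
    rw [if_neg (Ne.symm hp), zero_mul]
  · intro h
    exact absurd (mem_univ _) h

lemma ver_chk (c : Clause k V) : (ver (k := k) ι ok).val (data true false Φ y) (.chk c) = true ↔
    (mapc ι c ∈ Φ → ok (nTrue y c) = true) := by
  classical
  rw [Net.val_none (ver (k := k) ι ok) _ (g := .chk c) rfl]
  show (decide (Multiset.count true _ < k + 1) || ok (Multiset.count true _ - (k + 1))) = true ↔ _
  rw [count_true, sum_VGate]
  have h1 : ∑ c', (ver (k := k) ι ok).w (.inC c') (.chk c) * ((ver (k := k) ι ok).val (data true false Φ y) (.inC c')).toNat =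
      if mapc ι c ∈ Φ then k + 1 else 0 := by
    rw [Finset.sum_eq_single c]
    · have h2 : (ver (k := k) ι ok).w (.inC c) (.chk c) = k + 1 := if_pos rfl
      rw [h2]
      by_cases h : mapc ι c ∈ Φ
      · rw [(ver_inC ι ok Φ y c).mpr h, if_pos h]
        exact mul_one _
      · have h3 : (ver (k := k) ι ok).val (data true false Φ y) (.inC c) = false := by
          rw [← Bool.not_eq_true]
          exact fun h' => h ((ver_inC ι ok Φ y c).mp h')
        rw [h3, if_neg h]
        exact mul_zero _
    · intro c' _ hc'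
      have h2 : (ver (k := k) ι ok).w (.inC c') (.chk c) = 0 := if_neg hc'
      rw [h2, zero_mul]
    · intro h
      exact absurd (mem_univ _) h
  have h2 : ∑ p, (ver (k := k) ι ok).w (.gs p) (.chk c) * ((ver (k := k) ι ok).val (data true false Φ y) (.gs p)).toNat =
      nTrue y c := by
    rw [← sum_occ]
    refine Finset.sum_congr rfl fun p _ => ?_
    rw [ver_gs]
    rfl
  have h3 : ∑ c', (ver (k := k) ι ok).w (.chk c') (.chk c) * ((ver (k := k) ι ok).val (data true false Φ y) (.chk c')).toNat = 0 :=
    Finset.sum_eq_zero fun c' _ => zero_mul _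
  have h4 : ∑ v, (ver (k := k) ι ok).w (.var v) (.chk c) * ((ver (k := k) ι ok).val (data true false Φ y) (.var v)).toNat = 0 :=
    Finset.sum_eq_zero fun c' _ => zero_mul _
  have h5 : (ver (k := k) ι ok).w .out (.chk c) * ((ver (k := k) ι ok).val (data true false Φ y) .out).toNat = 0 := zero_mul _
  rw [h1, h2, h3, h4, h5]
  have hle : nTrue y c ≤ k := by
    unfold nTrue
    exact (Finset.card_filter_le _ _).trans (by rw [Finset.card_univ, Fintype.card_fin])
  by_cases h : mapc ι c ∈ Φ
  · rw [if_pos h]
    have h6 : k + 1 + (nTrue y c + (0 + (0 + 0))) - (k + 1) = nTrue y c := by omega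
    have h7 : ¬ (k + 1 + (nTrue y c + (0 + (0 + 0))) < k + 1) := by omega
    rw [h6, decide_eq_false h7, Bool.false_or]
    exact ⟨fun h' _ => h', fun h' => h' h⟩
  · rw [if_neg h]
    have h7 : 0 + (nTrue y c + (0 + (0 + 0))) < k + 1 := by omega
    rw [decide_eq_true h7, Bool.true_or]
    exact ⟨fun _ h' => absurd h' h, fun _ => rfl⟩

lemma sum_zmod {M : Type} [AddCommMonoid M] (f : V × ZMod 2 → M) (v : V) :
    ∑ p : V × ZMod 2, (if p.1 = v then f p else 0) = f (v, 0) + f (v, 1) := by
  rw [Fintype.sum_prod_type, Finset.sum_eq_single v]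
  · simp only [if_true]
    exact Fin.sum_univ_two (fun b : ZMod 2 => f (v, b))
  · intro v' _ hv'
    exact Finset.sum_eq_zero fun b _ => if_neg hv'
  · intro h
    exact absurd (mem_univ _) h

lemma ver_var (v : V) : (ver (k := k) ι ok).val (data true false Φ y) (.var v) = true ↔
    (y (v, 0)).toNat + (y (v, 1)).toNat = 1 := by
  classical
  rw [Net.val_none (ver (k := k) ι ok) _ (g := .var v) rfl]
  show decide (Multiset.count true _ = 1) = true ↔ _
  rw [count_true, sum_VGate, decide_eq_true_iff]
  have h1 : ∑ c', (ver (k := k) ι ok).w (.inC c') (.var v) * ((ver (k := k) ι ok).val (data true false Φ y) (.inC c')).toNat = 0 :=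
    Finset.sum_eq_zero fun c' _ => zero_mul _
  have h2 : ∑ p, (ver (k := k) ι ok).w (.gs p) (.var v) * ((ver (k := k) ι ok).val (data true false Φ y) (.gs p)).toNat =
      (y (v, 0)).toNat + (y (v, 1)).toNat := by
    rw [← sum_zmod (fun p => (y p).toNat) v]
    refine Finset.sum_congr rfl fun p _ => ?_
    rw [ver_gs]
    show (if p.1 = v then 1 else 0) * (y p).toNat = _
    split_ifs
    · exact one_mul _
    · exact zero_mul _
  have h3 : ∑ c', (ver (k := k) ι ok).w (.chk c') (.var v) * ((ver (k := k) ι ok).val (data true false Φ y) (.chk c')).toNat = 0 :=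
    Finset.sum_eq_zero fun c' _ => zero_mul _
  have h4 : ∑ v', (ver (k := k) ι ok).w (.var v') (.var v) * ((ver (k := k) ι ok).val (data true false Φ y) (.var v')).toNat = 0 :=
    Finset.sum_eq_zero fun c' _ => zero_mul _
  have h5 : (ver (k := k) ι ok).w .out (.var v) * ((ver (k := k) ι ok).val (data true false Φ y) .out).toNat = 0 := zero_mul _
  rw [h1, h2, h3, h4, h5]
  simp only [zero_add, add_zero]

lemma ver_eval : (ver (k := k) ι ok).eval (data true false Φ y) = true ↔
    (∀ c : Clause k V, mapc ι c ∈ Φ → ok (nTrue y c) = true) ∧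
      ∀ v, (y (v, 0)).toNat + (y (v, 1)).toNat = 1 := by
  classical
  show (ver (k := k) ι ok).val (data true false Φ y) .out = true ↔ _
  rw [Net.val_none (ver (k := k) ι ok) _ (g := .out) rfl]
  show decide (Multiset.count false _ = 0) = true ↔ _
  rw [count_false, sum_VGate, decide_eq_true_iff]
  have h1 : ∑ c', (ver (k := k) ι ok).w (.inC c') .out * (!(ver (k := k) ι ok).val (data true false Φ y) (.inC c')).toNat = 0 :=
    Finset.sum_eq_zero fun c' _ => zero_mul _
  have h2 : ∑ p, (ver (k := k) ι ok).w (.gs p) .out * (!(ver (k := k) ι ok).val (data true false Φ y) (.gs p)).toNat = 0 :=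
    Finset.sum_eq_zero fun c' _ => zero_mul _
  have h5 : (ver (k := k) ι ok).w .out .out * (!(ver (k := k) ι ok).val (data true false Φ y) .out).toNat = 0 := zero_mul _
  have hb : ∀ b : Bool, 1 * (!b).toNat = 0 ↔ b = true := by decide
  rw [h1, h2, h5, zero_add, zero_add, add_zero, Nat.add_eq_zero_iff, Finset.sum_eq_zero_iff,
    Finset.sum_eq_zero_iff]
  constructor
  · rintro ⟨h, h'⟩
    refine ⟨fun c => ?_, fun v => ?_⟩
    · exact (ver_chk ι ok Φ y c).mp ((hb _).mp (h c (mem_univ _)))
    · exact (ver_var ι ok Φ y v).mp ((hb _).mp (h' v (mem_univ _)))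
  · rintro ⟨h, h'⟩
    refine ⟨fun c _ => ?_, fun v _ => ?_⟩
    · exact (hb _).mpr ((ver_chk ι ok Φ y c).mpr (h c))
    · exact (hb _).mpr ((ver_var ι ok Φ y v).mpr (h' v))

/-- the guess which encodes an assignment -/
def oneHot (x : V → ZMod 2) (p : V × ZMod 2) : Bool := decide (x p.1 = p.2)

lemma nTrue_oneHot (x : V → ZMod 2) (c : Clause k V) :
    nTrue (oneHot x) c = ((univ : Finset (Fin k)).filter fun l => x (c l).1 = (c l).2).card := by
  unfold nTrue oneHot
  congr 1
  refine Finset.filter_congr fun l _ => ?_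
  rw [decide_eq_true_iff]

lemma oneHot_one (x : V → ZMod 2) (v : V) : (oneHot x (v, 0)).toNat + (oneHot x (v, 1)).toNat = 1 := by
  unfold oneHot
  have : ∀ z : ZMod 2, (decide (z = 0)).toNat + (decide (z = 1)).toNat = 1 := by decide
  exact this (x v)

lemma exists_oneHot (h : ∀ v, (y (v, 0)).toNat + (y (v, 1)).toNat = 1) : ∃ x : V → ZMod 2, y = oneHot x := by
  refine ⟨fun v => if y (v, 0) = true then 0 else 1, funext ?_⟩
  rintro ⟨v, b⟩
  unfold oneHot
  have h1 := h v
  have hb : b = 0 ∨ b = 1 := by
    revert b
    decide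
  show y (v, b) = decide ((if y (v, 0) = true then (0 : ZMod 2) else 1) = b)
  rcases hb with rfl | rfl
  · cases hy : y (v, 0) <;> simp
  · cases hy : y (v, 0)
    · rw [hy] at h1
      cases hy1 : y (v, 1)
      · rw [hy1] at h1
        exact absurd h1 (by decide)
      · simp
    · rw [hy] at h1
      cases hy1 : y (v, 1)
      · simp
      · rw [hy1] at h1
        exact absurd h1 (by decide)

/-- acceptance by some guess -/
lemma ver_exists : (∃ y, (ver (k := k) ι ok).eval (data true false Φ y) = true) ↔
    ∃ x : V → ZMod 2, ∀ c : Clause k V, mapc ι c ∈ Φ →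
      ok ((univ : Finset (Fin k)).filter fun l => x (c l).1 = (c l).2).card = true := by
  constructor
  · rintro ⟨y, hy⟩
    rw [ver_eval] at hy
    obtain ⟨x, rfl⟩ := exists_oneHot y hy.2
    refine ⟨x, fun c hc => ?_⟩
    rw [← nTrue_oneHot]
    exact hy.1 c hc
  · rintro ⟨x, hx⟩
    refine ⟨oneHot x, ?_⟩
    rw [ver_eval]
    refine ⟨fun c hc => ?_, oneHot_one x⟩
    rw [nTrue_oneHot]
    exact hx c hc

/-- the action of a negation pattern on literals -/
def lit (a : V → ZMod 2) : Equiv.Perm (V × ZMod 2) where
  toFun p := (p.1, p.2 + a p.1)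
  invFun p := (p.1, p.2 - a p.1)
  left_inv _ := Prod.ext rfl (add_sub_cancel_right _ _)
  right_inv _ := Prod.ext rfl (sub_add_cancel _ _)

lemma lit_add (a b : V → ZMod 2) : lit (a + b) = lit a * lit b := by
  refine Equiv.ext fun p => ?_
  refine Prod.ext rfl ?_
  show p.2 + (a + b) p.1 = p.2 + b p.1 + a p.1
  rw [Pi.add_apply]
  ring

/-- the automorphism of the verifying network -/
def verPerm (a : V → ZMod 2) : Equiv.Perm (VGate k V) where
  toFun
    | .inC c => .inC (neg a c)
    | .gs p => .gs (lit a p)
    | .chk c => .chk (neg a c)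
    | .var v => .var v
    | .out => .out
  invFun
    | .inC c => .inC ((neg a).symm c)
    | .gs p => .gs ((lit a).symm p)
    | .chk c => .chk ((neg a).symm c)
    | .var v => .var v
    | .out => .out
  left_inv g := by
    cases g
    · exact congrArg VGate.inC (Equiv.symm_apply_apply _ _)
    · exact congrArg VGate.gs (Equiv.symm_apply_apply _ _)
    · exact congrArg VGate.chk (Equiv.symm_apply_apply _ _)
    · rfl
    · rfl
  right_inv g := by
    cases g
    · exact congrArg VGate.inC (Equiv.apply_symm_apply _ _)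
    · exact congrArg VGate.gs (Equiv.apply_symm_apply _ _)
    · exact congrArg VGate.chk (Equiv.apply_symm_apply _ _)
    · rfl
    · rfl

lemma occ_neg (a : V → ZMod 2) (p : V × ZMod 2) (c : Clause k V) : occ (lit a p) (neg a c) = occ p c := by
  unfold occ
  congr 1
  refine Finset.filter_congr fun l _ => ?_
  have h : neg a c l = lit a (c l) := rfl
  rw [h]
  exact (lit a).injective.eq_iff

lemma ver_aut (a : X → ZMod 2) :
    (ver (k := k) ι ok).IsAut (Equiv.sumCongr (neg a) (lit fun v => a (ι v))) (verPerm fun v => a (ι v)) := by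
  refine ⟨?_, ?_, ?_, rfl⟩
  · intro g
    cases g <;> rfl
  · intro h g
    cases h with
    | inC c =>
      cases g with
      | chk c' =>
        show (if neg (fun v => a (ι v)) c = neg (fun v => a (ι v)) c' then k + 1 else 0) =
          if c = c' then k + 1 else 0
        by_cases hc : c = c'
        · rw [if_pos hc, if_pos (by rw [hc])]
        · rw [if_neg hc, if_neg (fun h' => hc ((neg _).injective h'))]
      | _ => rfl
    | gs p =>
      cases g with
      | chk c => exact occ_neg _ p c
      | _ => rfl
    | chk c => cases g <;> rfl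
    | var v => cases g <;> rfl
    | out => cases g <;> rfl
  · intro g
    cases g <;> rfl

end H522R3.ND
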